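import Mathlib

set_option autoImplicit false

namespace Pool.Agent.Lib.MP_1fd81f_co

open Real

/-- Cost function at scale `e ^ 2`. -/
noncomputable def psi (e v : ℝ) : ℝ := if e ^ 2 < v then 6 * v * Real.sqrt v / e else 0

lemma psi_nonneg {e v : ℝ} (he : 0 < e) (hv : 0 ≤ v) : 0 ≤ psi e v := by
  unfold psi
  split_ifs
  · positivity
  · exact le_rfl

lemma jensen4 (a b c d s t u w : ℝ) (ha : 0 ≤ a) (hb : 0 ≤ b) (hc : 0 ≤ c) (hd : 0 ≤ d)
    (h : a + b + c + d = 1) :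
    exp (a * s + b * t + c * u + d * w) ≤ a * exp s + b * exp t + c * exp u + d * exp w := by
  set m := a * s + b * t + c * u + d * w with hm
  have key : ∀ x : ℝ, exp m * (1 + (x - m)) ≤ exp x := by
    intro x
    have h1 : 1 + (x - m) ≤ exp (x - m) := by linarith [Real.add_one_le_exp (x - m)]
    calc exp m * (1 + (x - m)) ≤ exp m * exp (x - m) :=
          mul_le_mul_of_nonneg_left h1 (exp_pos m).le
      _ = exp x := by rw [← Real.exp_add]; congr 1; ring
  have e1 := mul_le_mul_of_nonneg_left (key s) ha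
  have e2 := mul_le_mul_of_nonneg_left (key t) hb
  have e3 := mul_le_mul_of_nonneg_left (key u) hc
  have e4 := mul_le_mul_of_nonneg_left (key w) hd
  have : a * (exp m * (1 + (s - m))) + b * (exp m * (1 + (t - m))) + c * (exp m * (1 + (u - m)))
      + d * (exp m * (1 + (w - m))) = exp m := by
    have h2 : a * (exp m * (1 + (s - m))) + b * (exp m * (1 + (t - m))) + c * (exp m * (1 + (u - m)))
      + d * (exp m * (1 + (w - m)))
        = exp m * ((a + b + c + d) * (1 - m) + (a * s + b * t + c * u + d * w)) := by ring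
    rw [h2, h, ← hm]; ring
  linarith

lemma weight_le {p b c P Q t : ℝ} (hp : 0 ≤ p) (hb : p ≤ b) (hc : p ≤ c)
    (h : 0 < b → 0 < c → exp t ≤ P) (hPQ : P ≤ Q) : p * exp t ≤ p * Q := by
  rcases hp.eq_or_lt with h0 | h0
  · rw [← h0]; simp
  · exact mul_le_mul_of_nonneg_left ((h (by linarith) (by linarith)).trans hPQ) hp

lemma coupling_bound (δ q k0 k1 b0 b1 c0 c1 F0 F1 G0 G1 P00 P01 P10 P11 Q0 Q1 : ℝ)
    (hb : b0 + b1 = 1) (hc : c0 + c1 = 1)
    (hq1 : b1 - c1 ≤ q) (hq2 : c1 - b1 ≤ q) (hq3 : q ≤ b0 + c0) (hq4 : q ≤ b1 + c1)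
    (hk0 : (1 - q) * exp (-k0) ≤ 1 - δ) (hk1 : q * exp (-k1) ≤ δ)
    (h00 : 0 < b0 → 0 < c0 → exp (-(F0 + G0)) ≤ P00)
    (h01 : 0 < b0 → 0 < c1 → exp (-(F0 + G1)) ≤ P01)
    (h10 : 0 < b1 → 0 < c0 → exp (-(F1 + G0)) ≤ P10)
    (h11 : 0 < b1 → 0 < c1 → exp (-(F1 + G1)) ≤ P11)
    (hQ0 : 0 ≤ Q0) (hQ1 : 0 ≤ Q1)
    (l00 : P00 ≤ Q0) (l11 : P11 ≤ Q0) (l01 : P01 ≤ Q1) (l10 : P10 ≤ Q1) :
    exp (-((1 - q) * k0 + q * k1 + (b0 * F0 + b1 * F1) + (c0 * G0 + c1 * G1)))
      ≤ (1 - δ) * Q0 + δ * Q1 := by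
  set p00 := (b0 + c0 - q) / 2 with hp00
  set p11 := (b1 + c1 - q) / 2 with hp11
  set p01 := (c1 - b1 + q) / 2 with hp01
  set p10 := (b1 - c1 + q) / 2 with hp10
  have n00 : 0 ≤ p00 := by rw [hp00]; linarith
  have n11 : 0 ≤ p11 := by rw [hp11]; linarith
  have n01 : 0 ≤ p01 := by rw [hp01]; linarith
  have n10 : 0 ≤ p10 := by rw [hp10]; linarith
  have mb0 : p00 + p01 = b0 := by rw [hp00, hp01]; linarith
  have mb1 : p10 + p11 = b1 := by rw [hp10, hp11]; linarith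
  have mc0 : p00 + p10 = c0 := by rw [hp00, hp10]; linarith
  have mc1 : p01 + p11 = c1 := by rw [hp01, hp11]; linarith
  have mq0 : p00 + p11 = 1 - q := by rw [hp00, hp11]; linarith
  have mq1 : p01 + p10 = q := by rw [hp01, hp10]; linarith
  have J := jensen4 p00 p11 p01 p10 (-(F0 + G0) + -k0) (-(F1 + G1) + -k0) (-(F0 + G1) + -k1)
    (-(F1 + G0) + -k1) n00 n11 n01 n10 (by linarith)
  have hexp : -((1 - q) * k0 + q * k1 + (b0 * F0 + b1 * F1) + (c0 * G0 + c1 * G1))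
      = p00 * (-(F0 + G0) + -k0) + p11 * (-(F1 + G1) + -k0) + p01 * (-(F0 + G1) + -k1)
        + p10 * (-(F1 + G0) + -k1) := by
    rw [← mq0, ← mb0, ← mb1, ← mc0, ← mc1]
    have : q * k1 = (p01 + p10) * k1 := by rw [mq1]
    rw [this]; ring
  rw [hexp]
  refine J.trans ?_
  simp only [Real.exp_add]
  have w00 := weight_le n00 (by linarith) (by linarith) h00 l00
  have w11 := weight_le n11 (by linarith) (by linarith) h11 l11
  have w01 := weight_le n01 (by linarith) (by linarith) h01 l01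
  have w10 := weight_le n10 (by linarith) (by linarith) h10 l10
  have E0 := (exp_pos (-k0)).le
  have E1 := (exp_pos (-k1)).le
  have a0 : p00 * (exp (-(F0 + G0)) * exp (-k0)) + p11 * (exp (-(F1 + G1)) * exp (-k0))
      ≤ (1 - δ) * Q0 := by
    calc p00 * (exp (-(F0 + G0)) * exp (-k0)) + p11 * (exp (-(F1 + G1)) * exp (-k0))
        = (p00 * exp (-(F0 + G0)) + p11 * exp (-(F1 + G1))) * exp (-k0) := by ring
      _ ≤ (p00 * Q0 + p11 * Q0) * exp (-k0) := mul_le_mul_of_nonneg_right (by linarith) E0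
      _ = ((1 - q) * exp (-k0)) * Q0 := by rw [← mq0]; ring
      _ ≤ (1 - δ) * Q0 := mul_le_mul_of_nonneg_right hk0 hQ0
  have a1 : p01 * (exp (-(F0 + G1)) * exp (-k1)) + p10 * (exp (-(F1 + G0)) * exp (-k1))
      ≤ δ * Q1 := by
    calc p01 * (exp (-(F0 + G1)) * exp (-k1)) + p10 * (exp (-(F1 + G0)) * exp (-k1))
        = (p01 * exp (-(F0 + G1)) + p10 * exp (-(F1 + G0))) * exp (-k1) := by ring
      _ ≤ (p01 * Q1 + p10 * Q1) * exp (-k1) := mul_le_mul_of_nonneg_right (by linarith) E1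
      _ = (q * exp (-k1)) * Q1 := by rw [← mq1]; ring
      _ ≤ δ * Q1 := mul_le_mul_of_nonneg_right hk1 hQ1
  linarith

lemma log_le_two_sqrt {x : ℝ} (hx : 0 < x) : Real.log x ≤ 2 * Real.sqrt x := by
  have hs : 0 < Real.sqrt x := Real.sqrt_pos.mpr hx
  have h1 : Real.log x = 2 * Real.log (Real.sqrt x) := by
    rw [Real.log_sqrt hx.le]; ring
  have h2 := Real.log_le_sub_one_of_pos hs
  linarith

lemma psi_lower {e v v' w : ℝ} (he : 0 < e) (hv : 0 ≤ v) (hv' : 0 ≤ v') (hw : e ^ 2 < w)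
    (hw2 : w ≤ (v + v') / 2) : 6 * w * Real.sqrt w / e ≤ psi e v + psi e v' := by
  have hw0 : 0 < w := lt_of_le_of_lt (sq_nonneg e) hw
  have mono : ∀ u : ℝ, w ≤ u → 6 * w * Real.sqrt w / e ≤ psi e u := by
    intro u hu
    unfold psi
    rw [if_pos (lt_of_lt_of_le hw hu)]
    have : Real.sqrt w ≤ Real.sqrt u := Real.sqrt_le_sqrt hu
    have h0 : 0 ≤ Real.sqrt w := Real.sqrt_nonneg w
    gcongr
    linarith
  rcases le_total v v' with h | h
  · have := mono v' (by linarith)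
    have := psi_nonneg he hv
    linarith
  · have := mono v (by linarith)
    have := psi_nonneg he hv'
    linarith

lemma two_point (e b0 b1 c0 c1 F0 F1 G0 G1 P00 P01 P10 P11 Q0 Q1 : ℝ)
    (he : 0 < e) (he2 : e ≤ 1 / 2)
    (hb0 : 0 ≤ b0) (hb1 : 0 ≤ b1) (hc0 : 0 ≤ c0) (hc1 : 0 ≤ c1)
    (hb : b0 + b1 = 1) (hc : c0 + c1 = 1)
    (h00 : 0 < b0 → 0 < c0 → exp (-(F0 + G0)) ≤ P00)
    (h01 : 0 < b0 → 0 < c1 → exp (-(F0 + G1)) ≤ P01)
    (h10 : 0 < b1 → 0 < c0 → exp (-(F1 + G0)) ≤ P10)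
    (h11 : 0 < b1 → 0 < c1 → exp (-(F1 + G1)) ≤ P11)
    (hQ0 : 0 ≤ Q0) (hQ1 : 0 ≤ Q1)
    (l00 : P00 ≤ Q0) (l11 : P11 ≤ Q0) (l01 : P01 ≤ Q1) (l10 : P10 ≤ Q1) :
    exp (-((psi e |b0 - b1| + (b0 * F0 + b1 * F1)) + (psi e |c0 - c1| + (c0 * G0 + c1 * G1))))
      ≤ (1 - e ^ 2) * Q0 + e ^ 2 * Q1 := by
  have hδ : 0 < e ^ 2 := by positivity
  have hδ2 : e ^ 2 ≤ 1 / 4 := by nlinarith
  set v := |b0 - b1| with hv
  set v' := |c0 - c1| with hv'
  have v0 : 0 ≤ v := abs_nonneg _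
  have v0' : 0 ≤ v' := abs_nonneg _
  have va : b0 - b1 ≤ v := le_abs_self _
  have vb : -(b0 - b1) ≤ v := neg_le_abs _
  have vc : c0 - c1 ≤ v' := le_abs_self _
  have vd : -(c0 - c1) ≤ v' := neg_le_abs _
  have p0 := psi_nonneg he v0
  have p0' := psi_nonneg he v0'
  have fin : ∀ q k0 k1 : ℝ, b1 - c1 ≤ q → c1 - b1 ≤ q → q ≤ b0 + c0 → q ≤ b1 + c1 →
      (1 - q) * exp (-k0) ≤ 1 - e ^ 2 → q * exp (-k1) ≤ e ^ 2 →
      (1 - q) * k0 + q * k1 ≤ psi e v + psi e v' →
      exp (-((psi e v + (b0 * F0 + b1 * F1)) + (psi e v' + (c0 * G0 + c1 * G1))))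
        ≤ (1 - e ^ 2) * Q0 + e ^ 2 * Q1 := by
    intro q k0 k1 h1 h2 h3 h4 h5 h6 h7
    refine le_trans ?_ (coupling_bound (e ^ 2) q k0 k1 b0 b1 c0 c1 F0 F1 G0 G1 P00 P01 P10 P11 Q0 Q1
      hb hc h1 h2 h3 h4 h5 h6 h00 h01 h10 h11 hQ0 hQ1 l00 l11 l01 l10)
    apply Real.exp_le_exp.mpr
    linarith
  set w := (v + v') / 2 with hw
  by_cases hw1 : w ≤ e ^ 2
  · apply fin (e ^ 2) 0 0 <;> first | linarith | (simp; try linarith)
  · push Not at hw1
    have hw0 : 0 < w := lt_trans hδ hw1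
    have hl := psi_lower he v0 v0' hw1 (le_of_eq hw)
    have sw : 0 < Real.sqrt w := Real.sqrt_pos.mpr hw0
    by_cases hw2 : w ≤ 1 / 2
    · have hr : 0 < w / e ^ 2 := by positivity
      apply fin w 0 (Real.log (w / e ^ 2))
      · linarith
      · linarith
      · linarith
      · linarith
      · simp; linarith
      · rw [Real.exp_neg, Real.exp_log hr]
        apply le_of_eq; field_simp
      · have h1 := log_le_two_sqrt hr
        have h2 : Real.sqrt (w / e ^ 2) = Real.sqrt w / e := by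
          rw [Real.sqrt_div hw0.le, Real.sqrt_sq he.le]
        rw [h2] at h1
        have h3 : w * Real.log (w / e ^ 2) ≤ w * (2 * (Real.sqrt w / e)) :=
          mul_le_mul_of_nonneg_left h1 hw0.le
        have h4 : 0 ≤ w * Real.sqrt w / e := by positivity
        have h5 : w * (2 * (Real.sqrt w / e)) = 2 * (w * Real.sqrt w / e) := by ring
        have h6 : 6 * w * Real.sqrt w / e = 6 * (w * Real.sqrt w / e) := by ring
        linarith
    · push Not at hw2
      have hr : 0 < 1 / e ^ 2 := by positivity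
      have hE : exp (-Real.log (1 / e ^ 2)) = e ^ 2 := by
        rw [Real.exp_neg, Real.exp_log hr]; field_simp
      have q0 : 0 ≤ |b1 - c1| := abs_nonneg _
      have q1 : |b1 - c1| ≤ 1 := by rw [abs_le]; constructor <;> linarith
      apply fin |b1 - c1| (Real.log (1 / e ^ 2)) (Real.log (1 / e ^ 2))
      · exact le_abs_self _
      · have := neg_le_abs (b1 - c1); linarith
      · rw [abs_le]; constructor <;> linarith
      · rw [abs_le]; constructor <;> linarith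
      · rw [hE]; nlinarith
      · rw [hE]; nlinarith
      · have h1 := log_le_two_sqrt hr
        have h2 : Real.sqrt (1 / e ^ 2) = 1 / e := by
          rw [Real.sqrt_div zero_le_one, Real.sqrt_sq he.le, Real.sqrt_one]
        rw [h2] at h1
        have h3 : (2 : ℝ) / 3 ≤ Real.sqrt w := by
          apply Real.le_sqrt_of_sq_le; linarith
        have h4 : 2 ≤ 6 * w * Real.sqrt w := by nlinarith
        have h5 : 2 * (1 / e) ≤ 6 * w * Real.sqrt w / e := by
          rw [mul_one_div]; gcongr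
        have h6 : (1 - |b1 - c1|) * Real.log (1 / e ^ 2) + |b1 - c1| * Real.log (1 / e ^ 2)
            = Real.log (1 / e ^ 2) := by ring
        linarith

lemma mul_log_ge {x : ℝ} (hx : 0 ≤ x) : 2 * (x - Real.sqrt x) ≤ x * Real.log x := by
  rcases hx.eq_or_lt with h | h
  · rw [← h]; simp
  · have hs : 0 < Real.sqrt x := Real.sqrt_pos.mpr h
    have h1 : Real.log x = 2 * Real.log (Real.sqrt x) := by
      rw [Real.log_sqrt hx]; ring
    have h2 := Real.one_sub_inv_le_log_of_pos hs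
    have h3 : Real.sqrt x * Real.sqrt x = x := Real.mul_self_sqrt hx
    have h4 : x * (1 - (Real.sqrt x)⁻¹) = x - Real.sqrt x := by
      have : x * (Real.sqrt x)⁻¹ = Real.sqrt x := by
        field_simp
        nlinarith
      rw [mul_sub, this]; ring
    have h5 := mul_le_mul_of_nonneg_left h2 hx
    rw [h1]; nlinarith

lemma entropy_ge {b0 b1 : ℝ} (h0 : 0 ≤ b0) (h1 : 0 ≤ b1) (h : b0 + b1 = 1) :
    (b0 - b1) ^ 2 / 4 ≤ Real.log 2 + b0 * Real.log b0 + b1 * Real.log b1 := by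
  have aux : ∀ b : ℝ, 0 ≤ b → (2 * b) * Real.log (2 * b) = 2 * (b * Real.log 2 + b * Real.log b) := by
    intro b hb
    rcases hb.eq_or_lt with hh | hh
    · rw [← hh]; simp
    · rw [Real.log_mul (by norm_num) hh.ne']; ring
  have e0 := mul_log_ge (x := 2 * b0) (by linarith)
  have e1 := mul_log_ge (x := 2 * b1) (by linarith)
  rw [aux b0 h0] at e0
  rw [aux b1 h1] at e1
  set s := Real.sqrt (2 * b0) with hs
  set t := Real.sqrt (2 * b1) with ht
  have s0 : 0 ≤ s := Real.sqrt_nonneg _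
  have t0 : 0 ≤ t := Real.sqrt_nonneg _
  have ss : s * s = 2 * b0 := Real.mul_self_sqrt (by linarith)
  have tt : t * t = 2 * b1 := Real.mul_self_sqrt (by linarith)
  have hl : b0 * Real.log 2 + b1 * Real.log 2 = Real.log 2 := by rw [← add_mul, h, one_mul]
  have hσ : s + t ≤ 2 := by
    have hst : s * s + t * t = 2 := by linarith
    have h4 : (s + t) ^ 2 ≤ 2 ^ 2 := by nlinarith [sq_nonneg (s - t)]
    exact (pow_le_pow_iff_left₀ (by linarith) (by norm_num) (by norm_num)).mp h4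
  have key : (b0 - b1) ^ 2 / 4 ≤ 2 - (s + t) := by
    have a1 : (b0 - b1) ^ 2 / 4 = (s + t) ^ 2 * (2 + (s + t)) / 16 * (2 - (s + t)) := by
      have b : b0 - b1 = (s * s - t * t) / 2 := by rw [ss, tt]; ring
      have c : (s - t) ^ 2 = (2 + (s + t)) * (2 - (s + t)) := by
        have hst : s * s + t * t = 2 := by linarith
        linear_combination 2 * hst
      rw [b]
      calc ((s * s - t * t) / 2) ^ 2 / 4 = (s + t) ^ 2 * (s - t) ^ 2 / 16 := by ring
        _ = _ := by rw [c]; ring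
    have a2 : (s + t) ^ 2 * (2 + (s + t)) / 16 ≤ 1 := by
      have : (s + t) ^ 2 ≤ 4 := by nlinarith
      have : (s + t) ^ 2 * (2 + (s + t)) ≤ 4 * 4 := by
        apply mul_le_mul this (by linarith) (by linarith) (by norm_num)
      linarith
    rw [a1]
    nlinarith
  linarith

lemma geo_sum (s : ℝ) (hs : 0 ≤ s) (L : ℕ) : ∀ e : ℝ, 0 < e →
    ∑ i ∈ Finset.range L, (if e / 2 ^ i < s then e / 2 ^ i else 0) ≤ 2 * min s e := by
  induction L with
  | zero => intro e he; simp; constructor <;> linarith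
  | succ L ih =>
    intro e he
    rw [Finset.sum_range_succ']
    have h1 := ih (e / 2) (by linarith)
    have h2 : ∀ i : ℕ, e / 2 ^ (i + 1) = e / 2 / 2 ^ i := by
      intro i; rw [pow_succ]; field_simp
    simp only [h2, pow_zero, div_one]
    have m1 : min s (e / 2) ≤ e / 2 := min_le_right _ _
    have m2 : min s (e / 2) ≤ s := min_le_left _ _
    split_ifs with h
    · rw [min_eq_right h.le]; linarith
    · push Not at h
      rw [min_eq_left h]; linarith

lemma psi_sum (e v : ℝ) (he : 0 < e) (hv : 0 ≤ v) (L : ℕ) :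
    ∑ i ∈ Finset.range L, (e / 2 ^ i) ^ 2 * psi (e / 2 ^ i) v ≤ 12 * v ^ 2 := by
  have hs := Real.sqrt_nonneg v
  have h1 := geo_sum (Real.sqrt v) hs L e he
  have h2 : ∀ i ∈ Finset.range L, (e / 2 ^ i) ^ 2 * psi (e / 2 ^ i) v
      = 6 * v * Real.sqrt v * (if e / 2 ^ i < Real.sqrt v then e / 2 ^ i else 0) := by
    intro i _
    have hp : 0 < e / 2 ^ i := by positivity
    unfold psi
    by_cases h : (e / 2 ^ i) ^ 2 < v
    · rw [if_pos h, if_pos (Real.lt_sqrt_of_sq_lt h)]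
      field_simp
    · rw [if_neg h, if_neg]
      · simp
      · intro h'
        exact h ((Real.lt_sqrt hp.le).mp h')
  rw [Finset.sum_congr rfl h2, ← Finset.mul_sum]
  have h3 : min (Real.sqrt v) e ≤ Real.sqrt v := min_le_left _ _
  have h4 : Real.sqrt v * Real.sqrt v = v := Real.mul_self_sqrt hv
  calc 6 * v * Real.sqrt v * ∑ i ∈ Finset.range L, (if e / 2 ^ i < Real.sqrt v then e / 2 ^ i else 0)
      ≤ 6 * v * Real.sqrt v * (2 * Real.sqrt v) := by
        apply mul_le_mul_of_nonneg_left (by linarith) (by positivity)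
    _ = 12 * v * (Real.sqrt v * Real.sqrt v) := by ring
    _ = 12 * v ^ 2 := by rw [h4]; ring

end Pool.Agent.Lib.MP_1fd81f_co
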