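import Mathlib
import Pool.Agent.Lib.MP_1fd81f_co.TwoPoint

set_option autoImplicit false

namespace Pool.Agent.Lib.MP_1fd81f_co

open Real
open scoped Pointwise

abbrev V (n : ℕ) := Fin n → ZMod 2

lemma zmod2_cases (a : ZMod 2) : a = 0 ∨ a = 1 := by
  revert a; decide

lemma sum_zmod2 (f : ZMod 2 → ℝ) : ∑ a, f a = f 0 + f 1 := by
  have : (Finset.univ : Finset (ZMod 2)) = {0, 1} := by decide
  rw [this, Finset.sum_pair (by decide)]

lemma sum_cons {n : ℕ} (f : V (n + 1) → ℝ) :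
    ∑ y, f y = ∑ x : V n, f (Fin.cons 0 x) + ∑ x : V n, f (Fin.cons 1 x) := by
  rw [← (Fin.consEquiv (fun _ : Fin (n + 1) => ZMod 2)).sum_comp, Fintype.sum_prod_type, sum_zmod2]
  rfl

lemma sum_prod_cube {n : ℕ} (g : Fin n → ZMod 2 → ℝ) :
    ∑ z : V n, ∏ j, g j (z j) = ∏ j, (g j 0 + g j 1) := by
  have h := Finset.prod_univ_sum (fun _ : Fin n => (Finset.univ : Finset (ZMod 2))) g
  rw [Fintype.piFinset_univ] at h
  rw [← h]
  exact Finset.prod_congr rfl fun j _ => sum_zmod2 _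

/-- Product weight: each coordinate is `0` with probability `δ`. -/
noncomputable def mu (δ : ℝ) {n : ℕ} (z : V n) : ℝ := ∏ j, if z j = 0 then δ else 1 - δ

noncomputable def pm (δ : ℝ) {n : ℕ} (S : Finset (V n)) : ℝ := ∑ z ∈ S, mu δ z

def sl {n : ℕ} (B : Finset (V (n + 1))) (a : ZMod 2) : Finset (V n) :=
  Finset.univ.filter (fun x => (Fin.cons a x : V (n + 1)) ∈ B)

lemma mem_sl {n : ℕ} {B : Finset (V (n + 1))} {a : ZMod 2} {x : V n} :
    x ∈ sl B a ↔ (Fin.cons a x : V (n + 1)) ∈ B := by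
  simp [sl]

lemma mu_nonneg {δ : ℝ} (h0 : 0 ≤ δ) (h1 : δ ≤ 1) {n : ℕ} (z : V n) : 0 ≤ mu δ z := by
  unfold mu
  apply Finset.prod_nonneg
  intro j _
  split_ifs <;> linarith

lemma pm_nonneg {δ : ℝ} (h0 : 0 ≤ δ) (h1 : δ ≤ 1) {n : ℕ} (S : Finset (V n)) : 0 ≤ pm δ S :=
  Finset.sum_nonneg fun z _ => mu_nonneg h0 h1 z

lemma pm_mono {δ : ℝ} (h0 : 0 ≤ δ) (h1 : δ ≤ 1) {n : ℕ} {S T : Finset (V n)} (h : S ⊆ T) :
    pm δ S ≤ pm δ T :=
  Finset.sum_le_sum_of_subset_of_nonneg h fun z _ _ => mu_nonneg h0 h1 z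

lemma sum_mem_split {n : ℕ} (S : Finset (V (n + 1))) (f : V (n + 1) → ℝ) :
    ∑ z ∈ S, f z = ∑ x ∈ sl S 0, f (Fin.cons 0 x) + ∑ x ∈ sl S 1, f (Fin.cons 1 x) := by
  have h : ∑ z ∈ S, f z = ∑ z, if z ∈ S then f z else 0 := by
    rw [← Finset.sum_filter]; congr 1; ext z; simp
  rw [h, sum_cons]
  unfold sl
  rw [Finset.sum_filter, Finset.sum_filter]

lemma pm_split (δ : ℝ) {n : ℕ} (S : Finset (V (n + 1))) :
    pm δ S = (1 - δ) * pm δ (sl S 1) + δ * pm δ (sl S 0) := by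
  unfold pm
  rw [sum_mem_split, Finset.mul_sum, Finset.mul_sum, add_comm]
  congr 1
  · refine Finset.sum_congr rfl fun x _ => ?_
    unfold mu
    rw [Fin.prod_univ_succ]
    simp
  · refine Finset.sum_congr rfl fun x _ => ?_
    unfold mu
    rw [Fin.prod_univ_succ]
    simp

lemma card_split {n : ℕ} (S : Finset (V (n + 1))) :
    (S.card : ℝ) = (sl S 0).card + (sl S 1).card := by
  have := sum_mem_split S (fun _ => (1 : ℝ))
  simpa using this

lemma sl_add {n : ℕ} (B C : Finset (V (n + 1))) (a b : ZMod 2) :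
    sl B a + sl C b ⊆ sl (B + C) (a + b) := by
  intro z hz
  obtain ⟨x, hx, y, hy, rfl⟩ := Finset.mem_add.mp hz
  rw [mem_sl] at hx hy ⊢
  refine Finset.mem_add.mpr ⟨_, hx, _, hy, ?_⟩
  funext j
  refine Fin.cases ?_ (fun i => ?_) j <;> simp

/-- Relative size of a slice. -/
noncomputable def fr {n : ℕ} (B : Finset (V (n + 1))) (a : ZMod 2) : ℝ :=
  ((sl B a).card : ℝ) / B.card

lemma fr_nonneg {n : ℕ} (B : Finset (V (n + 1))) (a : ZMod 2) : 0 ≤ fr B a := by
  unfold fr; positivity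

lemma fr_add {n : ℕ} {B : Finset (V (n + 1))} (hB : B.Nonempty) : fr B 0 + fr B 1 = 1 := by
  unfold fr
  have : (0 : ℝ) < B.card := by exact_mod_cast hB.card_pos
  rw [← add_div, ← card_split, div_self this.ne']

lemma sl_nonempty {n : ℕ} {B : Finset (V (n + 1))} {a : ZMod 2} (h : 0 < fr B a) :
    (sl B a).Nonempty := by
  rw [← Finset.card_pos]
  by_contra h0
  have : (sl B a).card = 0 := by omega
  unfold fr at h
  rw [this] at h
  simp at h

/-- The potential at scale `e ^ 2`. -/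
noncomputable def Phi (e : ℝ) : (n : ℕ) → Finset (V n) → ℝ
  | 0, _ => 0
  | n + 1, B => psi e |fr B 0 - fr B 1| + (fr B 0 * Phi e n (sl B 0) + fr B 1 * Phi e n (sl B 1))

lemma pm_add_ge (e : ℝ) (he : 0 < e) (he2 : e ≤ 1 / 2) (n : ℕ) :
    ∀ B C : Finset (V n), B.Nonempty → C.Nonempty →
      exp (-(Phi e n B + Phi e n C)) ≤ pm (e ^ 2) (B + C) := by
  have d0 : 0 ≤ e ^ 2 := by positivity
  have d1 : e ^ 2 ≤ 1 := by nlinarith
  induction n with
  | zero =>
    intro B C hB hC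
    obtain ⟨z, hz⟩ := hB.add hC
    have h1 : B + C = {z} := by
      ext y
      simp only [Finset.mem_singleton]
      constructor
      · intro _; exact Subsingleton.elim _ _
      · intro h; rw [h]; exact hz
    rw [h1]
    simp [Phi, pm, mu]
  | succ n ih =>
    intro B C hB hC
    rw [pm_split]
    have key := two_point e (fr B 0) (fr B 1) (fr C 1) (fr C 0)
      (Phi e n (sl B 0)) (Phi e n (sl B 1)) (Phi e n (sl C 1)) (Phi e n (sl C 0))
      (pm (e ^ 2) (sl B 0 + sl C 1)) (pm (e ^ 2) (sl B 0 + sl C 0))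
      (pm (e ^ 2) (sl B 1 + sl C 1)) (pm (e ^ 2) (sl B 1 + sl C 0))
      (pm (e ^ 2) (sl (B + C) 1)) (pm (e ^ 2) (sl (B + C) 0))
      he he2 (fr_nonneg _ _) (fr_nonneg _ _) (fr_nonneg _ _) (fr_nonneg _ _)
      (fr_add hB) (by rw [add_comm]; exact fr_add hC)
      (fun h1 h2 => ih _ _ (sl_nonempty h1) (sl_nonempty h2))
      (fun h1 h2 => ih _ _ (sl_nonempty h1) (sl_nonempty h2))
      (fun h1 h2 => ih _ _ (sl_nonempty h1) (sl_nonempty h2))
      (fun h1 h2 => ih _ _ (sl_nonempty h1) (sl_nonempty h2))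
      (pm_nonneg d0 d1 _) (pm_nonneg d0 d1 _)
      (pm_mono d0 d1 (by simpa using sl_add B C 0 1))
      (pm_mono d0 d1 (by simpa using sl_add B C 1 0))
      (pm_mono d0 d1 (by simpa using sl_add B C 0 0))
      (pm_mono d0 d1 (by
        have := sl_add B C 1 1
        rwa [show (1 : ZMod 2) + 1 = 0 by decide] at this))
    refine le_trans (le_of_eq ?_) key
    congr 2
    simp only [Phi]
    rw [abs_sub_comm (fr C 1) (fr C 0)]
    ring

lemma Phi_sum (e : ℝ) (he : 0 < e) (L : ℕ) (n : ℕ) :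
    ∀ B : Finset (V n), B.Nonempty →
      ∑ i ∈ Finset.range L, (e / 2 ^ i) ^ 2 * Phi (e / 2 ^ i) n B
        ≤ 48 * (n * Real.log 2 - Real.log B.card) := by
  induction n with
  | zero =>
    intro B hB
    have h1 : B.card = 1 := by
      have h2 : B.card ≤ 1 := Finset.card_le_one.mpr fun a _ b _ => Subsingleton.elim _ _
      have := hB.card_pos
      omega
    simp [Phi, h1]
  | succ n ih =>
    intro B hB
    have hc : (0 : ℝ) < B.card := by exact_mod_cast hB.card_pos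
    have part : ∀ a : ZMod 2,
        fr B a * ∑ i ∈ Finset.range L, (e / 2 ^ i) ^ 2 * Phi (e / 2 ^ i) n (sl B a)
          ≤ 48 * (fr B a * (n * Real.log 2 - Real.log B.card) - fr B a * Real.log (fr B a)) := by
      intro a
      rcases (fr_nonneg B a).eq_or_lt with h | h
      · rw [← h]; simp
      · have h1 := ih _ (sl_nonempty h)
        have h2 : ((sl B a).card : ℝ) = fr B a * B.card := by
          unfold fr; field_simp
        rw [h2, Real.log_mul h.ne' hc.ne'] at h1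
        have h3 := mul_le_mul_of_nonneg_left h1 h.le
        linarith
    have h0 := part 0
    have h1 := part 1
    have hp := psi_sum e |fr B 0 - fr B 1| he (abs_nonneg _) L
    rw [sq_abs] at hp
    have hent := entropy_ge (fr_nonneg B 0) (fr_nonneg B 1) (fr_add hB)
    have hsum : ∑ i ∈ Finset.range L, (e / 2 ^ i) ^ 2 * Phi (e / 2 ^ i) (n + 1) B
        = ∑ i ∈ Finset.range L, (e / 2 ^ i) ^ 2 * psi (e / 2 ^ i) |fr B 0 - fr B 1|
          + (fr B 0 * ∑ i ∈ Finset.range L, (e / 2 ^ i) ^ 2 * Phi (e / 2 ^ i) n (sl B 0)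
          + fr B 1 * ∑ i ∈ Finset.range L, (e / 2 ^ i) ^ 2 * Phi (e / 2 ^ i) n (sl B 1)) := by
      rw [Finset.mul_sum, Finset.mul_sum, ← Finset.sum_add_distrib, ← Finset.sum_add_distrib]
      refine Finset.sum_congr rfl fun i _ => ?_
      simp only [Phi]
      ring
    rw [hsum]
    have hf := fr_add hB
    have h5 : fr B 0 * (n * Real.log 2 - Real.log B.card) + fr B 1 * (n * Real.log 2 - Real.log B.card)
        = n * Real.log 2 - Real.log B.card := by rw [← add_mul, hf, one_mul]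
    push_cast
    linarith

/-- Scale lemma: a dense set has a scale at which its sumset is heavy. -/
lemma exists_scale (e c : ℝ) (he : 0 < e) (he2 : e ≤ 1 / 2) (hc : 0 < c) (L : ℕ)
    (hL : 96 * 48 / c ≤ L) (n : ℕ) (B : Finset (V n)) (hB : c * 2 ^ n ≤ B.card) :
    ∃ i ∈ Finset.range L, exp (-(1 / (48 * (e / 2 ^ i) ^ 2))) ≤ pm ((e / 2 ^ i) ^ 2) (B + B) := by
  have h2n : (0 : ℝ) < 2 ^ n := by positivity
  have hcard : (0 : ℝ) < B.card := lt_of_lt_of_le (by positivity) hB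
  have hne : B.Nonempty := by
    rw [← Finset.card_pos]; exact_mod_cast hcard
  have hL0 : (0 : ℝ) < L := lt_of_lt_of_le (by positivity) hL
  have hD : n * Real.log 2 - Real.log B.card ≤ 1 / c := by
    have h1 : Real.log (c * 2 ^ n) ≤ Real.log B.card := Real.log_le_log (by positivity) hB
    rw [Real.log_mul hc.ne' h2n.ne', Real.log_pow] at h1
    have h2 := Real.one_sub_inv_le_log_of_pos hc
    rw [one_div]
    linarith
  have hs := Phi_sum e he L n B hne
  have hex : ∃ i ∈ Finset.range L, (e / 2 ^ i) ^ 2 * Phi (e / 2 ^ i) n B ≤ 1 / 96 := by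
    apply Finset.exists_le_of_sum_le
    · rw [Finset.nonempty_range_iff]
      intro h; rw [h] at hL0; simp at hL0
    · rw [Finset.sum_const, Finset.card_range, nsmul_eq_mul]
      have : 48 * (1 / c) ≤ L * (1 / 96 : ℝ) := by
        have : 96 * 48 / c = 96 * (48 * (1 / c)) := by ring
        linarith
      linarith
  obtain ⟨i, hi, h⟩ := hex
  refine ⟨i, hi, ?_⟩
  have hp : 0 < e / 2 ^ i := by positivity
  have hp2 : e / 2 ^ i ≤ 1 / 2 := by
    refine le_trans ?_ he2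
    apply div_le_self he.le
    exact one_le_pow₀ (by norm_num)
  refine le_trans ?_ (pm_add_ge (e / 2 ^ i) hp hp2 n B B hne hne)
  apply Real.exp_le_exp.mpr
  have hq : 0 < (e / 2 ^ i) ^ 2 := by positivity
  have : Phi (e / 2 ^ i) n B + Phi (e / 2 ^ i) n B ≤ 1 / (48 * (e / 2 ^ i) ^ 2) := by
    rw [le_div_iff₀ (by positivity)]
    linarith
  linarith

end Pool.Agent.Lib.MP_1fd81f_co
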