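import Mathlib
import Pool.Agent.Lib.MP_1fd81f_co.Scale

set_option autoImplicit false

namespace Pool.Agent.Lib.MP_1fd81f_co

open Real
open scoped Pointwise

noncomputable def sg (a : ZMod 2) : ℝ := if a = 0 then 1 else -1

noncomputable def Ls {n : ℕ} (x : V n) : ℝ := ∑ j, sg (x j)

noncomputable def zc {n : ℕ} (z : V n) : ℝ := ∑ j, if z j = 0 then (1 : ℝ) else 0

noncomputable def Lz {n : ℕ} (z x : V n) : ℝ := ∑ j, if z j = 0 then sg (x j) else 0

@[simp] lemma sg_zero : sg 0 = 1 := by simp [sg]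
@[simp] lemma sg_one : sg 1 = -1 := by simp [sg]

lemma Ls_cons {n : ℕ} (a : ZMod 2) (x : V n) : Ls (Fin.cons a x : V (n + 1)) = sg a + Ls x := by
  unfold Ls
  rw [Fin.sum_univ_succ]
  simp

lemma sum_one_cube (n : ℕ) : ∑ _x : V n, (1 : ℝ) = 2 ^ n := by
  simp [ZMod.card]

lemma moment2 (n : ℕ) : ∑ x : V n, Ls x ^ 2 = n * 2 ^ n := by
  induction n with
  | zero => simp [Ls]
  | succ n ih =>
    rw [sum_cons, ← Finset.sum_add_distrib]
    have : ∀ x : V n, Ls (Fin.cons 0 x : V (n + 1)) ^ 2 + Ls (Fin.cons 1 x : V (n + 1)) ^ 2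
        = 2 * Ls x ^ 2 + 2 * 1 := by
      intro x; rw [Ls_cons, Ls_cons, sg_zero, sg_one]; ring
    simp only [this]
    rw [Finset.sum_add_distrib, ← Finset.mul_sum, ← Finset.mul_sum, ih, sum_one_cube]
    push_cast; ring

lemma moment4 (n : ℕ) : ∑ x : V n, Ls x ^ 4 = (3 * n ^ 2 - 2 * n) * 2 ^ n := by
  induction n with
  | zero => simp [Ls]
  | succ n ih =>
    rw [sum_cons, ← Finset.sum_add_distrib]
    have : ∀ x : V n, Ls (Fin.cons 0 x : V (n + 1)) ^ 4 + Ls (Fin.cons 1 x : V (n + 1)) ^ 4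
        = 2 * Ls x ^ 4 + (12 * Ls x ^ 2 + 2 * 1) := by
      intro x; rw [Ls_cons, Ls_cons, sg_zero, sg_one]; ring
    simp only [this]
    rw [Finset.sum_add_distrib, Finset.sum_add_distrib, ← Finset.mul_sum, ← Finset.mul_sum,
      ← Finset.mul_sum, ih, moment2, sum_one_cube]
    push_cast; ring

lemma Ls_add_one {n : ℕ} (x : V n) : Ls (x + 1) = -Ls x := by
  unfold Ls
  rw [← Finset.sum_neg_distrib]
  refine Finset.sum_congr rfl fun j _ => ?_
  rcases zmod2_cases (x j) with h | h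
  · simp [h]
  · simp only [Pi.add_apply, Pi.one_apply, h]
    rw [show (1 : ZMod 2) + 1 = 0 by decide]; simp

lemma ball_card {n : ℕ} (m : ℝ) (hm : 0 < m) (hn : m ^ 2 = n) :
    3 / 32 * (2 : ℝ) ^ n ≤ ((Finset.univ.filter fun x : V n => m / 2 ≤ Ls x).card : ℝ) := by
  have hN : (0 : ℝ) < n := by rw [← hn]; positivity
  have h1 : ((Finset.univ.filter fun x : V n => m / 2 ≤ Ls x).card : ℝ)
      = ∑ x : V n, if m / 2 ≤ Ls x then (1 : ℝ) else 0 := by
    rw [Finset.sum_boole]
  have h2 : ∑ x : V n, (if m / 2 ≤ Ls x then (1 : ℝ) else 0)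
      = ∑ x : V n, if m / 2 ≤ -Ls x then (1 : ℝ) else 0 := by
    rw [← Equiv.sum_comp (Equiv.addRight (1 : V n))]
    refine Finset.sum_congr rfl fun x _ => ?_
    simp only [Equiv.coe_addRight, Ls_add_one]
  have h3 : ∀ x : V n, Ls x ^ 2 / (2 * n) - Ls x ^ 4 / (16 * n ^ 2) - 1 / 8 * 1
      ≤ (if m / 2 ≤ Ls x then (1 : ℝ) else 0) + (if m / 2 ≤ -Ls x then (1 : ℝ) else 0) := by
    intro x
    set t := Ls x ^ 2 / n with ht
    have e1 : Ls x ^ 2 / (2 * n) = t / 2 := by rw [ht]; field_simp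
    have e2 : Ls x ^ 4 / (16 * n ^ 2) = t ^ 2 / 16 := by rw [ht]; field_simp
    rw [e1, e2]
    have b1 : t / 2 - t ^ 2 / 16 - 1 / 8 * 1 ≤ 1 := by nlinarith [sq_nonneg (t - 4)]
    by_cases ha : m / 2 ≤ Ls x
    · rw [if_pos ha]
      split_ifs <;> linarith
    · rw [if_neg ha]
      by_cases hb : m / 2 ≤ -Ls x
      · rw [if_pos hb]; linarith
      · rw [if_neg hb]
        push Not at ha hb
        have : Ls x ^ 2 ≤ (m / 2) ^ 2 := by
          apply sq_le_sq' <;> linarith
        have : t ≤ 1 / 4 := by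
          rw [ht, div_le_iff₀ hN, ← hn]; linarith
        nlinarith [sq_nonneg t]
  have h4 := Finset.sum_le_sum fun x (_ : x ∈ (Finset.univ : Finset (V n))) => h3 x
  rw [Finset.sum_add_distrib, ← h2, ← h1, Finset.sum_sub_distrib, Finset.sum_sub_distrib,
    ← Finset.sum_div, ← Finset.sum_div, ← Finset.mul_sum, moment2, moment4, sum_one_cube] at h4
  have h2n : (0 : ℝ) < 2 ^ n := by positivity
  have e1 : (n : ℝ) * 2 ^ n / (2 * n) = 1 / 2 * 2 ^ n := by field_simp
  have e2 : (3 * (n : ℝ) ^ 2 - 2 * n) * 2 ^ n / (16 * n ^ 2) ≤ 3 / 16 * 2 ^ n := by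
    rw [div_le_iff₀ (by positivity)]
    nlinarith [mul_pos hN h2n]
  linarith

lemma Ls_add {n : ℕ} (x z : V n) : Ls x + Ls (x + z) = 2 * Lz z x := by
  unfold Ls Lz
  rw [← Finset.sum_add_distrib, Finset.mul_sum]
  refine Finset.sum_congr rfl fun j _ => ?_
  simp only [Pi.add_apply]
  rcases zmod2_cases (z j) with h | h
  · simp [h]; ring
  · rcases zmod2_cases (x j) with h' | h'
    · simp [h, h']
    · rw [h, h', show (1 : ZMod 2) + 1 = 0 by decide]; simp

lemma hoeffding {n : ℕ} (z : V n) (h s : ℝ) (hs : 0 ≤ s) :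
    ((Finset.univ.filter fun x : V n => h ≤ Lz z x).card : ℝ)
      ≤ 2 ^ n * exp (zc z * (s ^ 2 / 2) - s * h) := by
  have h1 : ((Finset.univ.filter fun x : V n => h ≤ Lz z x).card : ℝ)
      = ∑ x : V n, if h ≤ Lz z x then (1 : ℝ) else 0 := by
    rw [Finset.sum_boole]
  have h2 : ∀ x : V n, (if h ≤ Lz z x then (1 : ℝ) else 0)
      ≤ exp (-(s * h)) * ∏ j, exp (if z j = 0 then s * sg (x j) else 0) := by
    intro x
    rw [← Real.exp_sum, ← Real.exp_add]
    have : ∑ j, (if z j = 0 then s * sg (x j) else 0) = s * Lz z x := by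
      unfold Lz
      rw [Finset.mul_sum]
      refine Finset.sum_congr rfl fun j _ => ?_
      split_ifs <;> simp
    rw [this]
    split_ifs with hh
    · apply Real.one_le_exp
      nlinarith
    · exact (exp_pos _).le
  have h3 := Finset.sum_le_sum fun x (_ : x ∈ (Finset.univ : Finset (V n))) => h2 x
  rw [← h1, ← Finset.mul_sum,
    sum_prod_cube (fun j a => exp (if z j = 0 then s * sg a else 0))] at h3
  have h4 : ∏ j, (exp (if z j = 0 then s * sg 0 else 0) + exp (if z j = 0 then s * sg 1 else 0))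
      ≤ ∏ j, (2 * exp ((if z j = 0 then (1 : ℝ) else 0) * (s ^ 2 / 2))) := by
    apply Finset.prod_le_prod
    · intro j _; positivity
    · intro j _
      split_ifs with hz
      · have := Real.cosh_le_exp_half_sq s
        rw [Real.cosh_eq] at this
        simp only [sg_zero, sg_one, mul_one, mul_neg, one_mul]
        linarith
      · simp; norm_num
  rw [Finset.prod_mul_distrib, ← Real.exp_sum, ← Finset.sum_mul, Finset.prod_const,
    Finset.card_univ, Fintype.card_fin] at h4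
  refine h3.trans ?_
  calc exp (-(s * h)) * ∏ j, (exp (if z j = 0 then s * sg 0 else 0)
        + exp (if z j = 0 then s * sg 1 else 0))
      ≤ exp (-(s * h)) * (2 ^ n * exp (zc z * (s ^ 2 / 2))) :=
        mul_le_mul_of_nonneg_left h4 (exp_pos _).le
    _ = 2 ^ n * exp (zc z * (s ^ 2 / 2) - s * h) := by
        rw [sub_eq_add_neg, Real.exp_add]; ring

lemma mu_total (δ : ℝ) (n : ℕ) : ∑ z : V n, mu δ z = 1 := by
  unfold mu
  rw [sum_prod_cube (fun _ a => if a = 0 then δ else 1 - δ)]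
  simp

lemma tail {δ : ℝ} (h0 : 0 ≤ δ) (h1 : δ ≤ 1) (n : ℕ) :
    pm δ (Finset.univ.filter fun z : V n => ¬ zc z ≤ 3 * δ * n) ≤ exp (-(δ * n)) := by
  unfold pm
  rw [Finset.sum_filter]
  have h2 : ∀ z : V n, (if ¬ zc z ≤ 3 * δ * n then mu δ z else 0)
      ≤ exp (-(3 * δ * n)) * ∏ j, (if z j = 0 then δ * exp 1 else 1 - δ) := by
    intro z
    have e : ∏ j, (if z j = 0 then δ * exp 1 else 1 - δ) = mu δ z * exp (zc z) := by
      unfold mu zc
      rw [Real.exp_sum, ← Finset.prod_mul_distrib]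
      refine Finset.prod_congr rfl fun j _ => ?_
      split_ifs <;> simp
    rw [e]
    have hm := mu_nonneg h0 h1 z
    split_ifs with hh
    · positivity
    · push Not at hh
      have : 1 ≤ exp (-(3 * δ * n)) * exp (zc z) := by
        rw [← Real.exp_add]; apply Real.one_le_exp; linarith
      nlinarith
  refine (Finset.sum_le_sum fun z _ => h2 z).trans ?_
  rw [← Finset.mul_sum, sum_prod_cube (fun _ a => if a = 0 then δ * exp 1 else 1 - δ)]
  have h3 : ∏ _j : Fin n, ((if (0 : ZMod 2) = 0 then δ * exp 1 else 1 - δ)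
      + (if (1 : ZMod 2) = 0 then δ * exp 1 else 1 - δ)) ≤ ∏ _j : Fin n, exp (2 * δ) := by
    have he : exp 1 ≤ 3 := by linarith [Real.exp_one_lt_d9]
    apply Finset.prod_le_prod
    · intro j _
      simp only [if_true, one_ne_zero, if_false]
      have := exp_pos 1
      nlinarith
    · intro j _
      simp only [if_true, one_ne_zero, if_false]
      have := Real.add_one_le_exp (2 * δ)
      nlinarith
  refine (mul_le_mul_of_nonneg_left h3 (exp_pos _).le).trans ?_
  rw [← Real.exp_sum, ← Real.exp_add, Finset.sum_const, Finset.card_univ, Fintype.card_fin,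
    nsmul_eq_mul]
  apply le_of_eq; congr 1; ring

lemma hitting {Y : Type} [DecidableEq Y] (μ : Y → ℝ) (hμ : ∀ y, 0 ≤ μ y) (G : Finset Y)
    (hG : ∑ y ∈ G, μ y ≤ 1) (p : ℝ) (hp : 0 < p) (hp1 : p ≤ 1) (M : ℕ) :
    ∀ F : Finset (Finset Y), (∀ S ∈ F, p ≤ ∑ y ∈ G.filter (· ∈ S), μ y) →
      (F.card : ℝ) * (1 - p) ^ M < 1 →
      ∃ T : Finset Y, T ⊆ G ∧ T.card ≤ M ∧ ∀ S ∈ F, ∃ y ∈ T, y ∈ S := by
  induction M with
  | zero =>
    intro F _ h
    have : F.card = 0 := by
      rw [pow_zero, mul_one] at h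
      have : F.card < 1 := by exact_mod_cast h
      omega
    rw [Finset.card_eq_zero] at this
    exact ⟨∅, by simp, by simp, by simp [this]⟩
  | succ M ih =>
    intro F hF h
    rcases F.eq_empty_or_nonempty with hE | hE
    · exact ⟨∅, by simp, by simp, by simp [hE]⟩
    obtain ⟨S0, hS0⟩ := hE
    have hGne : G.Nonempty := by
      by_contra hc
      rw [Finset.not_nonempty_iff_eq_empty] at hc
      have := hF S0 hS0
      rw [hc] at this
      simp at this
      linarith
    obtain ⟨y, hy, hmax⟩ := Finset.exists_max_image G (fun y => (F.filter (y ∈ ·)).card) hGne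
    have hcnt : p * F.card ≤ ((F.filter (y ∈ ·)).card : ℝ) := by
      calc p * F.card = ∑ _S ∈ F, p := by rw [Finset.sum_const, nsmul_eq_mul, mul_comm]
        _ ≤ ∑ S ∈ F, ∑ w ∈ G.filter (· ∈ S), μ w := Finset.sum_le_sum hF
        _ = ∑ S ∈ F, ∑ w ∈ G, if w ∈ S then μ w else 0 := by
            refine Finset.sum_congr rfl fun S _ => ?_
            rw [Finset.sum_filter]
        _ = ∑ w ∈ G, ∑ S ∈ F, if w ∈ S then μ w else 0 := Finset.sum_comm
        _ = ∑ w ∈ G, μ w * ((F.filter (w ∈ ·)).card : ℝ) := by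
            refine Finset.sum_congr rfl fun w _ => ?_
            rw [← Finset.sum_filter, Finset.sum_const, nsmul_eq_mul, mul_comm]
        _ ≤ ∑ w ∈ G, μ w * ((F.filter (y ∈ ·)).card : ℝ) := by
            refine Finset.sum_le_sum fun w hw => ?_
            apply mul_le_mul_of_nonneg_left _ (hμ w)
            exact_mod_cast hmax w hw
        _ = (∑ w ∈ G, μ w) * ((F.filter (y ∈ ·)).card : ℝ) := by rw [Finset.sum_mul]
        _ ≤ 1 * ((F.filter (y ∈ ·)).card : ℝ) :=
            mul_le_mul_of_nonneg_right hG (Nat.cast_nonneg _)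
        _ = _ := one_mul _
    have hsplit : ((F.filter (y ∈ ·)).card : ℝ) + ((F.filter (fun S => ¬ y ∈ S)).card : ℝ)
        = F.card := by
      exact_mod_cast Finset.card_filter_add_card_filter_not (s := F) (y ∈ ·)
    obtain ⟨T, hT1, hT2, hT3⟩ := ih (F.filter (fun S => ¬ y ∈ S))
      (fun S hS => hF S (Finset.mem_filter.mp hS).1) (by
        have h1 : ((F.filter (fun S => ¬ y ∈ S)).card : ℝ) ≤ F.card * (1 - p) := by linarith
        have h2 : 0 ≤ (1 - p) ^ M := pow_nonneg (by linarith) M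
        calc ((F.filter (fun S => ¬ y ∈ S)).card : ℝ) * (1 - p) ^ M
            ≤ F.card * (1 - p) * (1 - p) ^ M := mul_le_mul_of_nonneg_right h1 h2
          _ = F.card * (1 - p) ^ (M + 1) := by ring
          _ < 1 := h)
    refine ⟨insert y T, ?_, ?_, ?_⟩
    · exact Finset.insert_subset hy hT1
    · exact (Finset.card_insert_le _ _).trans (by omega)
    · intro S hS
      by_cases hyS : y ∈ S
      · exact ⟨y, Finset.mem_insert_self _ _, hyS⟩
      · obtain ⟨w, hw, hwS⟩ := hT3 S (Finset.mem_filter.mpr ⟨hS, hyS⟩)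
        exact ⟨w, Finset.mem_insert_of_mem hw, hwS⟩

end Pool.Agent.Lib.MP_1fd81f_co
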