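import Mathlib
import Pool.Agent.Lib.MP_1fd81f_co.Scale

/-! Independent characters, chosen layer by layer, that see every almost antipodal point. -/

set_option autoImplicit false

namespace Pool.Agent.Lib.MP_1fd81f_co.DB
open Finset
open scoped Classical

variable {n : ℕ}

abbrev sp (s : Finset (V n)) : Submodule (ZMod 2) (V n) := Submodule.span (ZMod 2) (s : Set (V n))

noncomputable def ms (μ : V n → ℝ) (s : Finset (V n)) : ℝ := ∑ ξ with ξ ∈ sp s, μ ξ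

noncomputable def nz (C : Finset (V n)) (x : V n) : ℕ := (C.filter fun ξ => ξ ⬝ᵥ x = 0).card

noncomputable def co (μ : V n → ℝ) (t u : Finset (V n)) (z : V n) : ℝ :=
  ∑ ξ with (ξ ∈ sp t ∧ ξ ∉ sp u) ∧ ξ ⬝ᵥ z = 0, μ ξ

def Ind (s : Finset (V n)) : Prop := LinearIndepOn (ZMod 2) id (s : Set (V n))

lemma sp_mono {s t : Finset (V n)} (h : s ⊆ t) : sp s ≤ sp t := Submodule.span_mono (by exact_mod_cast h)

lemma step (μ : V n → ℝ) (hμ : ∀ ξ, 0 ≤ μ ξ) (t U Z : Finset (V n)) (f : V n → ℝ)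
    (hf : ∀ z, 0 ≤ f z) (q lam : ℝ) (hq : 0 < q) (hU : q ≤ ms μ t - ms μ U)
    (hZ : ∀ z ∈ Z, lam * co μ t U z ≤ q) : ∃ ξ ∈ sp t, ξ ∉ sp U ∧
    ∑ z ∈ Z, f z * (if ξ ⬝ᵥ z = 0 then lam else 1) ≤ 2 * ∑ z ∈ Z, f z := by
  set R := univ.filter fun ξ : V n => ξ ∈ sp t ∧ ξ ∉ sp U with hR
  have hM : q ≤ ∑ ξ ∈ R, μ ξ := by
    refine hU.trans ?_
    rw [hR, ms, ms, sum_filter, sum_filter, sum_filter, ← sum_sub_distrib]
    refine sum_le_sum fun ξ _ => ?_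
    have := hμ ξ
    by_cases a : ξ ∈ sp t <;> by_cases b : ξ ∈ sp U <;> simp [a, b, this]
  by_contra hc
  push Not at hc
  obtain ⟨ξ0, h0, h1⟩ := exists_ne_zero_of_sum_ne_zero (hq.trans_le hM).ne'
  have h2 : ∑ ξ ∈ R, μ ξ * (2 * ∑ z ∈ Z, f z) <
      ∑ ξ ∈ R, μ ξ * ∑ z ∈ Z, f z * (if ξ ⬝ᵥ z = 0 then lam else 1) := by
    refine sum_lt_sum (fun ξ h => ?_) ⟨ξ0, h0, ?_⟩
    · have := (mem_filter.1 h).2
      exact mul_le_mul_of_nonneg_left (hc ξ this.1 this.2).le (hμ ξ)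
    · have := (mem_filter.1 h0).2
      exact mul_lt_mul_of_pos_left (hc ξ0 this.1 this.2) ((hμ ξ0).lt_of_ne' h1)
  simp only [mul_sum] at h2
  rw [sum_comm, sum_comm (s := R)] at h2
  refine h2.not_ge (sum_le_sum fun z hz => ?_)
  have h3 : ∑ ξ ∈ R, μ ξ * (f z * if ξ ⬝ᵥ z = 0 then lam else 1) ≤
      f z * (∑ ξ ∈ R, μ ξ + lam * co μ t U z) := by
    rw [co, ← filter_filter, ← hR, sum_filter (s := R) (fun ξ => ξ ⬝ᵥ z = 0), mul_sum,
      ← sum_add_distrib, mul_sum]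
    refine sum_le_sum fun ξ _ => ?_
    have := mul_nonneg (hf z) (hμ ξ)
    split_ifs <;> nlinarith
  rw [← sum_mul]
  nlinarith [hZ z hz, hf z]

lemma co_anti (μ : V n → ℝ) (hμ : ∀ ξ, 0 ≤ μ ξ) (t : Finset (V n)) {u U : Finset (V n)}
    (h : u ⊆ U) (z : V n) : co μ t U z ≤ co μ t u z :=
  sum_le_sum_of_subset_of_nonneg (fun ξ a => by
    simp only [mem_filter, mem_univ, true_and] at a ⊢
    exact ⟨⟨a.1.1, fun b => a.1.2 (sp_mono h b)⟩, a.2⟩) fun ξ _ _ => hμ ξ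

lemma layer (μ : V n → ℝ) (hμ : ∀ ξ, 0 ≤ μ ξ) (t u P Z : Finset (V n)) (q lam : ℝ) (hq : 0 < q)
    (hl : 0 ≤ lam) (hP : Ind P) (hPu : P ⊆ u) (hZ : ∀ z ∈ Z, lam * co μ t u z ≤ q) (k : ℕ)
    (hU : ∀ U : Finset (V n), U.card ≤ u.card + k → q ≤ ms μ t - ms μ U) :
    ∃ C : Finset (V n), C.card = k ∧ Disjoint P C ∧ Ind (P ∪ C) ∧ (∀ ξ ∈ C, ξ ∈ sp t) ∧
      ∑ z ∈ Z, lam ^ nz C z ≤ 2 ^ k * Z.card := by
  induction k with
  | zero => exact ⟨∅, rfl, by simp, by simpa using hP, by simp, by simp [nz]⟩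
  | succ k ih =>
    obtain ⟨C, h1, h2, h3, h4, h5⟩ := ih fun U h => hU U (by omega)
    obtain ⟨ξ, a1, a2, a3⟩ := step μ hμ t (u ∪ C) Z (fun z => lam ^ nz C z)
      (fun z => pow_nonneg hl _) q lam hq (hU _ ((card_union_le _ _).trans (by omega)))
      fun z hz => (mul_le_mul_of_nonneg_left (co_anti μ hμ t subset_union_left z) hl).trans (hZ z hz)
    have a4 : ξ ∉ sp (P ∪ C) := fun h => a2 (sp_mono (union_subset_union_left hPu) h)
    have a5 : ξ ∉ P ∪ C := fun h => a4 (Submodule.subset_span h)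
    rw [mem_union, not_or] at a5
    refine ⟨insert ξ C, by rw [card_insert_of_notMem a5.2, h1], by simp [a5.1, h2], ?_, ?_, ?_⟩
    · rw [union_insert, Ind, coe_insert]
      exact LinearIndepOn.id_insert h3 a4
    · intro x hx
      rcases mem_insert.1 hx with rfl | hx
      exacts [a1, h4 x hx]
    · have : ∀ z, lam ^ nz (insert ξ C) z = lam ^ nz C z * if ξ ⬝ᵥ z = 0 then lam else 1 := by
        intro z
        rw [nz, filter_insert]
        split_ifs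
        · rw [card_insert_of_notMem (by simp [a5.2]), pow_succ]; rfl
        · rw [mul_one]; rfl
      simp only [this]
      rw [pow_succ]
      linarith

lemma block (μ : V n → ℝ) (hμ : ∀ ξ, 0 ≤ μ ξ) (t u P : Finset (V n)) (q : ℝ) (hq : 0 < q)
    (hP : Ind P) (hPu : P ⊆ u) (r : ℕ) (hr : 0 < r) (ht : t.card ≤ 128 * r)
    (hU : ∀ U : Finset (V n), U.card ≤ u.card + 4 * r → q ≤ ms μ t - ms μ U) :
    ∃ C : Finset (V n), C.card = 4 * r ∧ Disjoint P C ∧ Ind (P ∪ C) ∧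
      ∀ z, 2 ^ 133 * co μ t u z ≤ q → nz C z < r := by
  let π : V n → t → ZMod 2 := fun z ξ => ξ.1 ⬝ᵥ z
  let Z0 : Set (V n) := {z | 2 ^ 133 * co μ t u z ≤ q}
  let Z := (univ.filter fun p => ∃ z ∈ Z0, π z = p).image (Function.invFunOn π Z0)
  obtain ⟨C, h1, h2, h3, h4, h5⟩ := layer μ hμ t u P Z q (2 ^ 133) hq (by positivity) hP hPu
    (fun z hz => by
      obtain ⟨p, hp, rfl⟩ := mem_image.1 hz
      exact Function.invFunOn_mem (mem_filter.1 hp).2) (4 * r) hU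
  refine ⟨C, h1, h2, h3, fun z hz => ?_⟩
  have hz' : ∃ y ∈ Z0, π y = π z := ⟨z, hz, rfl⟩
  have a1 := Function.invFunOn_eq hz'
  have a2 : Function.invFunOn π Z0 (π z) ∈ Z := mem_image_of_mem _ (mem_filter.2 ⟨mem_univ _, hz'⟩)
  generalize Function.invFunOn π Z0 (π z) = y at a1 a2
  have a3 : ∀ ξ ∈ sp t, ξ ⬝ᵥ y = ξ ⬝ᵥ z := fun ξ h => by
    induction h using Submodule.span_induction with
    | mem x hx => exact congrFun a1 ⟨x, hx⟩
    | zero => simp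
    | add x x' _ _ a b => rw [add_dotProduct, add_dotProduct, a, b]
    | smul c x _ a => rw [smul_dotProduct, smul_dotProduct, a]
  have a4 : nz C y = nz C z := congrArg card (filter_congr fun ξ h => by rw [a3 ξ (h4 ξ h)])
  have a5 : (Z.card : ℝ) ≤ 2 ^ (128 * r) := by
    have : Z.card ≤ 2 ^ (128 * r) := by
      refine card_image_le.trans ((card_le_univ _).trans ?_)
      rw [Fintype.card_fun, ZMod.card, Fintype.card_coe]
      exact Nat.pow_le_pow_right (by norm_num) ht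
    exact_mod_cast this
  have a6 := (single_le_sum (f := fun z => ((2 : ℝ) ^ 133) ^ nz C z)
    (fun _ _ => by positivity) a2).trans h5
  have a7 : ((2 : ℝ) ^ 133) ^ nz C y ≤ 2 ^ (4 * r) * 2 ^ (128 * r) :=
    a6.trans (mul_le_mul_of_nonneg_left a5 (by positivity))
  rw [← pow_add, ← pow_mul, pow_le_pow_iff_right₀ (by norm_num), a4] at a7
  omega

end Pool.Agent.Lib.MP_1fd81f_co.DB
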