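import Mathlib
import Pool.Agent.Lib.MP_1fd81f_co.Layer

/-! Products of Hamming balls over independent characters: sumset form and counting. -/

set_option autoImplicit false

namespace Pool.Agent.Lib.MP_1fd81f_co.DB
open Finset
open scoped Classical Pointwise

variable {n : ℕ}

lemma dot_single (ξ : V n) (a : Fin n) : ξ ⬝ᵥ Pi.single a 1 = ξ a := by simp

lemma dual (T : Finset (V n)) (hT : Ind T) :
    ∃ e : V n → V n, ∀ ξ ∈ T, ∀ ζ ∈ T, ζ ⬝ᵥ e ξ = if ζ = ξ then 1 else 0 := by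
  have : ∀ ξ ∈ T, ∃ v : V n, ∀ ζ ∈ T, ζ ⬝ᵥ v = if ζ = ξ then 1 else 0 := by
    intro ξ hξ
    have h := LinearIndepOn.notMem_span hT (i := ξ) hξ
    obtain ⟨f, h1, h2⟩ := Submodule.exists_le_ker_of_notMem h
    have h3 : ∀ ζ : V n, (ζ ⬝ᵥ fun a => f (Pi.single a 1)) = f ζ := fun ζ => by
      conv_rhs => rw [pi_eq_sum_univ' ζ, map_sum]
      simp [dotProduct]
    refine ⟨fun a => f (Pi.single a 1), fun ζ hζ => ?_⟩
    rw [h3]
    split_ifs with c
    · rw [c]; exact (zmod2_cases _).resolve_left h1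
    · exact h2 (Submodule.subset_span ⟨ζ, ⟨hζ, c⟩, rfl⟩)
  choose! e he using this
  exact ⟨e, he⟩

lemma ind_card (T : Finset (V n)) (hT : Ind T) : T.card ≤ n := by
  have := LinearIndependent.fintype_card_le_finrank (R := ZMod 2) hT
  simpa using this

lemma flip_sum (f : V n → ℝ) (ξ v : V n) (h : ξ ⬝ᵥ v = 1) (hf : ∀ x, f (x + v) = f x) (w : ℝ) :
    ∑ x, f x * (if ξ ⬝ᵥ x = 0 then w else 1) = (1 + w) / 2 * ∑ x, f x := by
  have h1 : ∑ x, f (x + v) * (if ξ ⬝ᵥ (x + v) = 0 then w else 1) =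
      ∑ x, f x * (if ξ ⬝ᵥ x = 0 then w else 1) :=
    Equiv.sum_comp (Equiv.addRight v) fun x => f x * (if ξ ⬝ᵥ x = 0 then w else 1)
  have h2 : ∑ x, f x * (if ξ ⬝ᵥ x = 0 then w else 1) + ∑ x, f (x + v) *
      (if ξ ⬝ᵥ (x + v) = 0 then w else 1) = (1 + w) * ∑ x, f x := by
    rw [← sum_add_distrib, mul_sum]
    refine sum_congr rfl fun x _ => ?_
    rw [hf, dotProduct_add, h]
    rcases zmod2_cases (ξ ⬝ᵥ x) with a | a <;> rw [a]
    · rw [if_pos rfl, if_neg (by decide)]; ring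
    · rw [if_neg (by decide), if_pos (by decide)]; ring
  linarith

lemma moment (T : Finset (V n)) (hT : Ind T) (w : ℝ) (C : Finset (V n)) (hC : C ⊆ T) :
    ∑ x, w ^ nz C x = ((1 + w) / 2) ^ C.card * 2 ^ n := by
  obtain ⟨e, he⟩ := dual T hT
  induction C using Finset.induction_on with
  | empty => simp [nz]
  | insert ξ C h ih =>
    have a1 := hC (mem_insert_self _ _)
    have a2 := (subset_insert _ _).trans hC
    have : ∀ z, w ^ nz (insert ξ C) z = w ^ nz C z * if ξ ⬝ᵥ z = 0 then w else 1 := by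
      intro z
      rw [nz, filter_insert]
      split_ifs
      · rw [card_insert_of_notMem (by simp [h]), pow_succ]; rfl
      · rw [mul_one]; rfl
    simp only [this]
    rw [flip_sum _ ξ (e ξ) (by rw [he ξ a1 ξ a1, if_pos rfl]), ih a2, card_insert_of_notMem h]
    · ring
    · intro x
      rw [nz, nz, filter_congr (q := fun ζ => ζ ⬝ᵥ x = 0) fun ζ hζ => ?_]
      rw [dotProduct_add, he ξ a1 ζ (a2 hζ), if_neg (by rintro rfl; exact h hζ), add_zero]

lemma bad_count (T : Finset (V n)) (hT : Ind T) (C : Finset (V n)) (hC : C ⊆ T) (r : ℕ)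
    (hr : C.card = 4 * r) :
    ((univ.filter fun x => nz C x < r).card : ℝ) ≤ (16 / 27) ^ r * 2 ^ n := by
  have h := moment T hT (1 / 3) C hC
  have h1 : ((univ.filter fun x => nz C x < r).card : ℝ) * (1 / 3) ^ r ≤ ∑ x, (1 / 3 : ℝ) ^ nz C x := by
    rw [← nsmul_eq_mul, ← sum_const]
    refine (sum_le_sum fun x hx => ?_).trans (sum_le_sum_of_subset_of_nonneg (subset_univ _)
      fun _ _ _ => by positivity)
    exact pow_le_pow_of_le_one (by norm_num) (by norm_num) (mem_filter.1 hx).2.le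
  rw [h, hr, pow_mul] at h1
  have h2 : (((1 + 1 / 3 : ℝ) / 2) ^ 4) ^ r = (16 / 27) ^ r * (1 / 3) ^ r := by
    rw [← mul_pow]; norm_num
  rw [h2, mul_right_comm] at h1
  exact le_of_mul_le_mul_right h1 (by positivity)

noncomputable def wt (C : Finset (V n)) (x : V n) : ℕ := (C.filter fun ξ => ¬ ξ ⬝ᵥ x = 0).card

lemma kernel (T : Finset (V n)) (e : V n → V n)
    (he : ∀ ξ ∈ T, ∀ ζ ∈ T, ζ ⬝ᵥ e ξ = if ζ = ξ then 1 else 0) :
    ∃ L : List (Finset (V n)), L.length = n ∧ (∀ S ∈ L, S.card ≤ n + 1) ∧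
      ∀ x, x ∈ L.sum ↔ ∀ ξ ∈ T, ξ ⬝ᵥ x = 0 := by
  let p : V n → V n := fun x => x - ∑ ξ ∈ T, (ξ ⬝ᵥ x) • e ξ
  have hp : ∀ x, ∀ ζ ∈ T, ζ ⬝ᵥ p x = 0 := fun x ζ h => by
    simp only [p, dotProduct_sub, dotProduct_sum, dotProduct_smul]
    rw [sum_congr rfl fun ξ a => by rw [he ξ a ζ h]]
    simp [h]
  refine ⟨List.ofFn fun a : Fin n => {0, p (Pi.single a 1)}, by simp, fun S h => ?_, fun x => ?_⟩
  · obtain ⟨a, rfl⟩ := List.mem_ofFn.1 h
    exact card_le_two.trans (Nat.succ_le_succ a.pos)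
  rw [mem_sum_list_ofFn]
  simp only [List.sum_ofFn]
  constructor
  · rintro ⟨f, rfl⟩ ξ h
    rw [dotProduct_sum]
    refine sum_eq_zero fun a _ => ?_
    rcases mem_insert.1 (f a).2 with c | c
    · rw [c, dotProduct_zero]
    · rw [mem_singleton.1 c, hp _ _ h]
  · intro h
    refine ⟨fun a => ⟨x a • p (Pi.single a 1), ?_⟩, ?_⟩
    · rcases zmod2_cases (x a) with c | c <;> simp [c]
    · simp only [p, smul_sub, sum_sub_distrib, smul_sum, smul_smul]
      rw [sum_comm, ← pi_eq_sum_univ' x, sum_eq_zero, sub_zero]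
      intro ξ c
      rw [← sum_smul]
      have := h ξ c
      rw [dotProduct_comm] at this
      simp only [dot_single]
      rw [show ∑ a, x a * ξ a = 0 from this, zero_smul]

lemma wt_add (C : Finset (V n)) (x v ξ : V n) (h : ∀ ζ ∈ C, ζ ≠ ξ → ζ ⬝ᵥ v = 0) :
    wt C (x + v) ≤ wt C x + 1 := by
  refine (card_le_card (t := insert ξ _) fun ζ a => ?_).trans (card_insert_le ξ _)
  rw [mem_filter] at a
  by_cases c : ζ = ξ
  · simp [c]
  · refine mem_insert_of_mem (mem_filter.2 ⟨a.1, ?_⟩)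
    simpa [dotProduct_add, h ζ a.1 c] using a.2

lemma wt_sub (C : Finset (V n)) (x v ξ : V n) (h : ∀ ζ ∈ C, ζ ≠ ξ → ζ ⬝ᵥ v = 0) (h1 : ξ ∈ C)
    (h2 : ¬ ξ ⬝ᵥ x = 0) (h3 : ξ ⬝ᵥ v = 1) : wt C (x - v) + 1 ≤ wt C x := by
  refine card_lt_card ⟨fun ζ a => ?_, fun a => ?_⟩
  · rw [mem_filter] at a ⊢
    by_cases c : ζ = ξ
    · exact ⟨a.1, c ▸ h2⟩
    · exact ⟨a.1, by simpa [dotProduct_sub, h ζ a.1 c] using a.2⟩
  · refine (mem_filter.1 (a (mem_filter.2 ⟨h1, h2⟩))).2 ?_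
    rw [dotProduct_sub, h3, (zmod2_cases _).resolve_left h2, sub_self]

lemma balls (J : ℕ) (C : ℕ → Finset (V n)) (hD : ∀ i < J, ∀ j < J, i ≠ j → Disjoint (C i) (C j))
    (hT : Ind ((range J).biUnion C)) (m : ℕ) (ρ : ℕ → ℕ) (hm : ∑ i ∈ range J, ρ i = m) :
    ∃ L : List (Finset (V n)), L.length = n + m ∧ (∀ S ∈ L, S.card ≤ n + 1) ∧
      ∀ x, x ∈ L.sum ↔ ∀ i < J, wt (C i) x ≤ ρ i := by
  obtain ⟨e, he⟩ := dual _ hT
  have hC : ∀ i < J, C i ⊆ (range J).biUnion C := fun i h =>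
    subset_biUnion_of_mem C (mem_range.2 h)
  induction m generalizing ρ with
  | zero =>
    obtain ⟨L, h1, h2, h3⟩ := kernel _ e he
    refine ⟨L, h1, h2, fun x => ?_⟩
    rw [h3]
    constructor
    · intro h i hi
      rw [wt, filter_eq_empty_iff.2 fun ξ a b => b (h ξ (hC i hi a))]
      simp
    · intro h ξ a
      obtain ⟨i, hi, a⟩ := mem_biUnion.1 a
      have := h i (mem_range.1 hi)
      rw [sum_eq_zero_iff.1 hm i hi, Nat.le_zero, wt, card_eq_zero, filter_eq_empty_iff] at this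
      exact not_not.1 (this a)
  | succ m ih =>
    obtain ⟨k, hk, h0⟩ := exists_ne_zero_of_sum_ne_zero (hm.trans_ne m.succ_ne_zero)
    obtain ⟨L, h1, h2, h3⟩ := ih (Function.update ρ k (ρ k - 1)) (by
      rw [sum_update_of_mem hk]
      rw [← add_sum_erase _ _ hk, ← sdiff_singleton_eq_erase] at hm
      omega)
    have hk' := mem_range.1 hk
    have h4 : ∀ ξ ∈ C k, ∀ i < J, ∀ ζ ∈ C i, ζ ≠ ξ → ζ ⬝ᵥ e ξ = 0 := fun ξ a i hi ζ b c => by
      rw [he ξ (hC k hk' a) ζ (hC i hi b), if_neg c]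
    have h5 : ∀ ξ ∈ C k, ∀ i < J, i ≠ k → ∀ x, wt (C i) (x + e ξ) = wt (C i) x :=
      fun ξ a i hi c x => congrArg card (filter_congr fun ζ b => by
        rw [dotProduct_add, h4 ξ a i hi ζ b (by
          rintro rfl; exact disjoint_left.1 (hD i hi k hk' c) b a), add_zero])
    refine ⟨insert 0 ((C k).image e) :: L, by simp [h1, add_assoc], fun S h => ?_,
      fun x => ?_⟩
    · rcases List.mem_cons.1 h with rfl | h
      · exact (card_insert_le _ _).trans (Nat.succ_le_succ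
          (card_image_le.trans ((card_le_card (hC k hk')).trans (ind_card _ hT))))
      · exact h2 S h
    rw [List.sum_cons, mem_add]
    constructor
    · rintro ⟨v, hv, y, hy, rfl⟩ i hi
      have a := (h3 y).1 hy i hi
      have b : Function.update ρ k (ρ k - 1) i ≤ ρ i := by
        by_cases c : i = k <;> simp [c]
      rcases mem_insert.1 hv with rfl | hv
      · rw [zero_add]; exact a.trans b
      obtain ⟨ξ, hξ, rfl⟩ := mem_image.1 hv
      rw [add_comm]
      by_cases c : i = k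
      · subst c
        have := wt_add (C i) y (e ξ) ξ (h4 ξ hξ i hi)
        rw [Function.update_self] at a
        omega
      · rw [h5 ξ hξ i hi c]; exact a.trans b
    · intro h
      by_cases c : wt (C k) x = 0
      · refine ⟨0, mem_insert_self _ _, x, (h3 x).2 fun i hi => ?_, zero_add _⟩
        by_cases d : i = k
        · rw [d, c]; exact Nat.zero_le _
        · rw [Function.update_of_ne d]; exact h i hi
      obtain ⟨ξ, hξ⟩ := card_ne_zero.1 c
      rw [mem_filter] at hξ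
      refine ⟨e ξ, mem_insert_of_mem (mem_image_of_mem _ hξ.1), x - e ξ,
        (h3 _).2 fun i hi => ?_, add_sub_cancel _ _⟩
      by_cases d : i = k
      · subst d
        have := wt_sub (C i) x (e ξ) ξ (h4 ξ hξ.1 i hi) hξ.1 hξ.2
          (by rw [he ξ (hC i hi hξ.1) ξ (hC i hi hξ.1), if_pos rfl])
        have := h i hi
        rw [Function.update_self]
        omega
      · rw [Function.update_of_ne d, ← h5 ξ hξ.1 i hi d, sub_add_cancel]; exact h i hi

end Pool.Agent.Lib.MP_1fd81f_co.DB
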