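import Mathlib
import Pool.Agent.Lib.MP_1fd81f_co.Ball

set_option autoImplicit false

namespace Pool.Agent.Lib.MP_1fd81f_co

open Real
open scoped Pointwise

lemma bad_card {n : ℕ} (m δ : ℝ) (hm0 : 0 < m) (hn : m ^ 2 = n) (hδ : 0 < δ) (z : V n)
    (hz : zc z ≤ 3 * δ * n) :
    ((Finset.univ.filter fun x : V n => m / 2 ≤ Lz z x).card : ℝ)
      ≤ 2 ^ n * exp (-(1 / (24 * δ))) := by
  refine (hoeffding z (m / 2) (1 / (6 * δ * m)) (by positivity)).trans ?_
  apply mul_le_mul_of_nonneg_left _ (by positivity)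
  apply Real.exp_le_exp.mpr
  have h1 : zc z * ((1 / (6 * δ * m)) ^ 2 / 2) ≤ 3 * δ * n * ((1 / (6 * δ * m)) ^ 2 / 2) :=
    mul_le_mul_of_nonneg_right hz (by positivity)
  have h2 : 3 * δ * n * ((1 / (6 * δ * m)) ^ 2 / 2) - 1 / (6 * δ * m) * (m / 2)
      = -(1 / (24 * δ)) := by
    rw [← hn]; field_simp; ring
  linarith

lemma scale_hit {n : ℕ} (m δ R : ℝ) (hn : m ^ 2 = n) (hδ : 0 < δ) (hδ4 : δ ≤ 1 / 4)
    (hm : 1 ≤ δ * m) (hR : 1 ≤ R) (F : Finset (Finset (V n))) (hF : (F.card : ℝ) ≤ exp (R - 1)) :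
    ∃ T : Finset (V n), (∀ z ∈ T, zc z ≤ 3 * δ * n) ∧ (T.card : ℝ) ≤ 3 * R * exp (1 / (48 * δ)) ∧
      ∀ B ∈ F, exp (-(1 / (48 * δ))) ≤ pm δ (B + B) → ∃ z ∈ T, z ∈ B + B := by
  classical
  have d1 : δ ≤ 1 := by linarith
  set E := exp (1 / (48 * δ)) with hE
  have E1 : 1 ≤ E := Real.one_le_exp (by positivity)
  have hEi : exp (-(1 / (48 * δ))) = E⁻¹ := by rw [Real.exp_neg]
  set p := E⁻¹ / 2 with hp
  have Ei0 : 0 < E⁻¹ := by positivity
  have Ei1 : E⁻¹ ≤ 1 := inv_le_one_of_one_le₀ E1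
  have p0 : 0 < p := by positivity
  have p1 : p ≤ 1 := by linarith
  set G := Finset.univ.filter fun z : V n => zc z ≤ 3 * δ * n with hG
  have htail : pm δ (Finset.univ.filter fun z : V n => ¬ zc z ≤ 3 * δ * n) ≤ p := by
    refine (tail hδ.le d1 n).trans ?_
    have h1 : 1 / δ ≤ δ * n := by
      rw [div_le_iff₀ hδ, ← hn]; nlinarith
    have h2 : 4 ≤ 1 / δ := by rw [le_div_iff₀ hδ]; linarith
    have h3 : 1 / (48 * δ) = 1 / 48 * (1 / δ) := by field_simp
    have h4 : -(δ * n) ≤ -(1 / (48 * δ)) + -1 := by linarith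
    have h5 : exp (-1) ≤ 1 / 2 := by
      rw [Real.exp_neg, inv_le_comm₀ (exp_pos 1) (by norm_num)]
      linarith [Real.add_one_le_exp 1]
    calc exp (-(δ * n)) ≤ exp (-(1 / (48 * δ)) + -1) := Real.exp_le_exp.mpr h4
      _ = E⁻¹ * exp (-1) := by rw [Real.exp_add, hEi]
      _ ≤ E⁻¹ * (1 / 2) := mul_le_mul_of_nonneg_left h5 Ei0.le
      _ = p := by rw [hp]; ring
  set F' := (F.filter fun B => E⁻¹ ≤ pm δ (B + B)).image fun B => B + B with hF'
  have hF'c : (F'.card : ℝ) ≤ exp (R - 1) := by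
    refine le_trans ?_ hF
    exact_mod_cast Finset.card_image_le.trans (Finset.card_filter_le _ _)
  obtain ⟨T, hT1, hT2, hT3⟩ := hitting (mu δ) (mu_nonneg hδ.le d1) G (by
      rw [← mu_total δ n]
      exact Finset.sum_le_sum_of_subset_of_nonneg (Finset.subset_univ _)
        fun z _ _ => mu_nonneg hδ.le d1 z) p p0 p1 ⌈R / p⌉₊ F' (by
      intro S hS
      obtain ⟨B, hB, rfl⟩ := Finset.mem_image.mp hS
      have hB2 := (Finset.mem_filter.mp hB).2
      have hsub : B + B ⊆ G.filter (· ∈ B + B)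
          ∪ (Finset.univ.filter fun z : V n => ¬ zc z ≤ 3 * δ * n) := by
        intro z hz
        by_cases h : zc z ≤ 3 * δ * n
        · exact Finset.mem_union_left _ (Finset.mem_filter.mpr ⟨by simp [hG, h], hz⟩)
        · exact Finset.mem_union_right _ (Finset.mem_filter.mpr ⟨Finset.mem_univ _, h⟩)
      have h1 := pm_mono hδ.le d1 hsub
      have h2 : pm δ (G.filter (· ∈ B + B)
          ∪ (Finset.univ.filter fun z : V n => ¬ zc z ≤ 3 * δ * n))
          ≤ pm δ (G.filter (· ∈ B + B))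
            + pm δ (Finset.univ.filter fun z : V n => ¬ zc z ≤ 3 * δ * n) := by
        unfold pm
        rw [← Finset.sum_union_inter]
        have : 0 ≤ ∑ z ∈ G.filter (· ∈ B + B)
          ∩ (Finset.univ.filter fun z : V n => ¬ zc z ≤ 3 * δ * n), mu δ z :=
          Finset.sum_nonneg fun z _ => mu_nonneg hδ.le d1 z
        linarith
      have h3 : p ≤ pm δ (G.filter (· ∈ B + B)) := by linarith
      exact h3) (by
      have h1 : (1 - p) ^ ⌈R / p⌉₊ ≤ exp (-R) := by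
        have a1 : 1 - p ≤ exp (-p) := by linarith [Real.add_one_le_exp (-p)]
        have a2 : (1 - p) ^ ⌈R / p⌉₊ ≤ exp (-p) ^ ⌈R / p⌉₊ := pow_le_pow_left₀ (by linarith) a1 _
        refine a2.trans ?_
        rw [← Real.exp_nat_mul]
        apply Real.exp_le_exp.mpr
        have a3 : R / p ≤ ⌈R / p⌉₊ := Nat.le_ceil _
        rw [div_le_iff₀ p0] at a3
        linarith
      calc (F'.card : ℝ) * (1 - p) ^ ⌈R / p⌉₊ ≤ exp (R - 1) * exp (-R) :=
            mul_le_mul hF'c h1 (pow_nonneg (by linarith) _) (exp_pos _).le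
        _ = exp (-1) := by rw [← Real.exp_add]; congr 1; ring
        _ < 1 := Real.exp_lt_one_iff.mpr (by norm_num))
  refine ⟨T, fun z hz => (Finset.mem_filter.mp (hT1 hz)).2, ?_, ?_⟩
  · have a1 : (T.card : ℝ) ≤ ⌈R / p⌉₊ := by exact_mod_cast hT2
    have a2 : (⌈R / p⌉₊ : ℝ) < R / p + 1 := Nat.ceil_lt_add_one (by positivity)
    have a3 : R / p = 2 * R * E := by rw [hp]; field_simp
    have a4 : 1 ≤ R * E := by nlinarith
    nlinarith
  · intro B hB h
    rw [hEi] at h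
    exact hT3 _ (Finset.mem_image.mpr ⟨B, Finset.mem_filter.mpr ⟨hB, h⟩, rfl⟩)

theorem core (n L : ℕ) (m e c R : ℝ) (hm0 : 0 < m) (hn : m ^ 2 = n) (he : 0 < e) (he2 : e ≤ 1 / 2)
    (hc : 0 < c) (hL : 96 * 48 / c ≤ L) (hm : 1 ≤ (e / 2 ^ L) ^ 2 * m) (hR : 1 ≤ R)
    (hsmall : 3 * L * R * exp (-(1 / (48 * e ^ 2))) ≤ 0.08)
    (F : Finset (Finset (V n))) (hF : (F.card : ℝ) ≤ exp (R - 1)) :
    ∃ A : Finset (V n), 0.01 * 2 ^ n ≤ (A.card : ℝ) ∧
      ∀ B ∈ F, c * 2 ^ n ≤ (B.card : ℝ) → ¬ (B + B ⊆ A + A) := by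
  classical
  have hscale : ∀ i ∈ Finset.range L, 0 < (e / 2 ^ i) ^ 2 ∧ (e / 2 ^ i) ^ 2 ≤ e ^ 2 ∧
      1 ≤ (e / 2 ^ i) ^ 2 * m := by
    intro i hi
    have hi' : i ≤ L := (Finset.mem_range.mp hi).le
    refine ⟨by positivity, ?_, ?_⟩
    · apply pow_le_pow_left₀ (by positivity)
      exact div_le_self he.le (one_le_pow₀ (by norm_num))
    · refine hm.trans ?_
      apply mul_le_mul_of_nonneg_right _ hm0.le
      apply pow_le_pow_left₀ (by positivity)
      apply div_le_div_of_nonneg_left he.le (by positivity)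
      exact pow_le_pow_right₀ (by norm_num) hi'
  have hT : ∀ i : ℕ, ∃ T : Finset (V n), i ∈ Finset.range L →
      (∀ z ∈ T, zc z ≤ 3 * (e / 2 ^ i) ^ 2 * n) ∧
      (T.card : ℝ) ≤ 3 * R * exp (1 / (48 * (e / 2 ^ i) ^ 2)) ∧
      ∀ B ∈ F, exp (-(1 / (48 * (e / 2 ^ i) ^ 2))) ≤ pm ((e / 2 ^ i) ^ 2) (B + B) →
        ∃ z ∈ T, z ∈ B + B := by
    intro i
    by_cases hi : i ∈ Finset.range L
    · obtain ⟨h1, h2, h3⟩ := hscale i hi
      obtain ⟨T, hT⟩ := scale_hit m ((e / 2 ^ i) ^ 2) R hn h1 (by nlinarith) h3 hR F hF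
      exact ⟨T, fun _ => hT⟩
    · exact ⟨∅, fun h => absurd h hi⟩
  choose T hT using hT
  set A0 := Finset.univ.filter fun x : V n => m / 2 ≤ Ls x with hA0
  set A := A0.filter fun x => ∀ i ∈ Finset.range L, ∀ z ∈ T i, Lz z x < m / 2 with hA
  refine ⟨A, ?_, ?_⟩
  · have hsub : A0 ⊆ A ∪ (Finset.range L).biUnion fun i => (T i).biUnion fun z =>
        Finset.univ.filter fun x : V n => m / 2 ≤ Lz z x := by
      intro x hx
      by_cases h : ∀ i ∈ Finset.range L, ∀ z ∈ T i, Lz z x < m / 2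
      · exact Finset.mem_union_left _ (Finset.mem_filter.mpr ⟨hx, h⟩)
      · push Not at h
        obtain ⟨i, hi, z, hz, h⟩ := h
        apply Finset.mem_union_right
        simp only [Finset.mem_biUnion, Finset.mem_filter, Finset.mem_univ, true_and]
        exact ⟨i, hi, z, hz, h⟩
    have h1 : A0.card ≤ A.card + ∑ i ∈ Finset.range L, ∑ z ∈ T i,
        (Finset.univ.filter fun x : V n => m / 2 ≤ Lz z x).card := by
      refine (Finset.card_le_card hsub).trans ((Finset.card_union_le _ _).trans ?_)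
      apply Nat.add_le_add_left
      refine Finset.card_biUnion_le.trans (Finset.sum_le_sum fun i _ => Finset.card_biUnion_le)
    have h2 : (A0.card : ℝ) ≤ A.card + ∑ i ∈ Finset.range L, ∑ z ∈ T i,
        ((Finset.univ.filter fun x : V n => m / 2 ≤ Lz z x).card : ℝ) := by exact_mod_cast h1
    have h2n : (0 : ℝ) < 2 ^ n := by positivity
    have h3 : ∀ i ∈ Finset.range L, ∑ z ∈ T i,
        ((Finset.univ.filter fun x : V n => m / 2 ≤ Lz z x).card : ℝ)
          ≤ 3 * R * exp (-(1 / (48 * e ^ 2))) * 2 ^ n := by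
      intro i hi
      obtain ⟨s1, s2, _⟩ := hscale i hi
      obtain ⟨t1, t2, _⟩ := hT i hi
      set δ := (e / 2 ^ i) ^ 2 with hδ
      calc ∑ z ∈ T i, ((Finset.univ.filter fun x : V n => m / 2 ≤ Lz z x).card : ℝ)
          ≤ ∑ _z ∈ T i, 2 ^ n * exp (-(1 / (24 * δ))) :=
            Finset.sum_le_sum fun z hz => bad_card m δ hm0 hn s1 z (t1 z hz)
        _ = (T i).card * (2 ^ n * exp (-(1 / (24 * δ)))) := by
            rw [Finset.sum_const, nsmul_eq_mul]
        _ ≤ 3 * R * exp (1 / (48 * δ)) * (2 ^ n * exp (-(1 / (24 * δ)))) :=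
            mul_le_mul_of_nonneg_right t2 (by positivity)
        _ = 3 * R * (exp (1 / (48 * δ)) * exp (-(1 / (24 * δ)))) * 2 ^ n := by ring
        _ ≤ 3 * R * exp (-(1 / (48 * e ^ 2))) * 2 ^ n := by
            apply mul_le_mul_of_nonneg_right _ h2n.le
            apply mul_le_mul_of_nonneg_left _ (by linarith)
            rw [← Real.exp_add]
            apply Real.exp_le_exp.mpr
            have a1 : 1 / (48 * δ) + -(1 / (24 * δ)) = -(1 / (48 * δ)) := by field_simp; ring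
            have a2 : 1 / (48 * e ^ 2) ≤ 1 / (48 * δ) :=
              one_div_le_one_div_of_le (by positivity) (by linarith)
            linarith
    have h4 := Finset.sum_le_sum h3
    rw [Finset.sum_const, Finset.card_range, nsmul_eq_mul] at h4
    have h5 := ball_card m hm0 hn
    have h6 : (L : ℝ) * (3 * R * exp (-(1 / (48 * e ^ 2))) * 2 ^ n) ≤ 0.08 * 2 ^ n := by
      have := mul_le_mul_of_nonneg_right hsmall h2n.le
      linarith
    linarith
  · intro B hB hd hsub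
    obtain ⟨i, hi, h⟩ := exists_scale e c he he2 hc L hL n B hd
    obtain ⟨z, hz, hzB⟩ := (hT i hi).2.2 B hB h
    obtain ⟨x, hx, y, hy, hxy⟩ := Finset.mem_add.mp (hsub hzB)
    have hyx : y = x + z := by
      rw [← hxy, ← add_assoc]
      have : x + x = 0 := by
        funext j
        simp only [Pi.add_apply, Pi.zero_apply]
        rcases zmod2_cases (x j) with h | h <;> rw [h] <;> decide
      rw [this, zero_add]
    have hx1 := Finset.mem_filter.mp hx
    have hy1 := Finset.mem_filter.mp hy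
    have a1 := (Finset.mem_filter.mp hx1.1).2
    have a2 := (Finset.mem_filter.mp hy1.1).2
    have a3 := hx1.2 i hi z hz
    have a4 := Ls_add x z
    rw [← hyx] at a4
    linarith

theorem strong (c : ℝ) (hc : 0 < c) : ∃ γ : ℝ, 0 < γ ∧ ∃ n0 : ℕ, ∀ n : ℕ, n0 ≤ n →
    ∀ F : Finset (Finset (V n)), (F.card : ℝ) ≤ exp (exp (γ * Real.sqrt n)) →
      ∃ A : Finset (V n), 0.01 * 2 ^ n ≤ (A.card : ℝ) ∧
        ∀ B ∈ F, c * 2 ^ n ≤ (B.card : ℝ) → ¬ (B + B ⊆ A + A) := by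
  obtain ⟨L, hL⟩ := exists_nat_ge (96 * 48 / c)
  set Q : ℝ := (2 ^ L) ^ 2 with hQ
  have Q0 : 0 < Q := by positivity
  set γ : ℝ := 1 / (96 * Q) with hγ
  have γ0 : 0 < γ := by positivity
  obtain ⟨N, hN⟩ := exists_nat_ge (4 * Q + 75 * L / γ)
  refine ⟨γ, γ0, N ^ 2, fun n hn F hF => ?_⟩
  set m := Real.sqrt n with hm
  have hNm : (N : ℝ) ≤ m := by
    apply Real.le_sqrt_of_sq_le
    exact_mod_cast hn
  have hL0 : 0 ≤ 75 * (L : ℝ) / γ := by positivity
  have m1 : 4 * Q ≤ m := by linarith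
  have m2 : 75 * L / γ ≤ m := by linarith
  have m0 : 0 < m := by linarith
  have hsq : Real.sqrt m ^ 2 = m := Real.sq_sqrt m0.le
  have sm0 : 0 < Real.sqrt m := Real.sqrt_pos.mpr m0
  have he2 : (2 ^ L / Real.sqrt m) ^ 2 = Q / m := by rw [div_pow, hsq]
  apply core n L m (2 ^ L / Real.sqrt m) c (exp (γ * m) + 1) m0 (Real.sq_sqrt (Nat.cast_nonneg n))
    (by positivity) _ hc hL _ (by linarith [exp_pos (γ * m)]) _ F (by simpa using hF)
  · have : (2 ^ L / Real.sqrt m) ^ 2 ≤ (1 / 2) ^ 2 := by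
      rw [he2, div_le_iff₀ m0]; linarith
    exact (pow_le_pow_iff_left₀ (by positivity) (by norm_num) (by norm_num)).mp this
  · apply le_of_eq
    have : (2 : ℝ) ^ L / Real.sqrt m / 2 ^ L = 1 / Real.sqrt m := by field_simp
    rw [this, div_pow, hsq]; field_simp
  · rw [he2]
    have a1 : 1 / (48 * (Q / m)) = γ * m + γ * m := by rw [hγ]; field_simp; ring
    rw [a1]
    set E := exp (γ * m) with hE
    have E1 : 1 ≤ E := Real.one_le_exp (by positivity)
    have a2 : exp (-(γ * m + γ * m)) = (E * E)⁻¹ := by rw [Real.exp_neg, Real.exp_add]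
    have a3 : 75 * L ≤ E := by
      rw [div_le_iff₀ γ0] at m2
      linarith [Real.add_one_le_exp (γ * m)]
    rw [a2, ← div_eq_mul_inv, div_le_iff₀ (by positivity)]
    have L0 : (0 : ℝ) ≤ L := Nat.cast_nonneg L
    nlinarith

end Pool.Agent.Lib.MP_1fd81f_co
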