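import Mathlib
import Pool.Agent.Lib.MP_1fd81f_co.Main

set_option autoImplicit false

namespace Pool.Agent.Lib.MP_1fd81f_co

open Real
open scoped Pointwise

open Classical in
noncomputable def Bof {n l P : ℕ} (g : Fin l → Fin P → V n) : Finset (V n) :=
  Finset.univ.filter fun x => ∃ t : Fin l → Fin P, ∑ i, g i (t i) = x

open Classical in
noncomputable def fam (n P : ℕ) : Finset (Finset (V n)) :=
  (Finset.range (P + 1)).biUnion fun l =>
    Finset.univ.image fun g : Fin l → Fin P → V n => Bof g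

lemma fam_card (n P : ℕ) : (fam n P).card ≤ (P + 1) * 2 ^ (n * P * P) := by
  classical
  unfold fam
  refine Finset.card_biUnion_le.trans ?_
  have : ∀ l ∈ Finset.range (P + 1),
      (Finset.univ.image fun g : Fin l → Fin P → V n => Bof g).card ≤ 2 ^ (n * P * P) := by
    intro l hl
    refine Finset.card_image_le.trans ?_
    have hl' : l ≤ P := Nat.lt_succ_iff.mp (Finset.mem_range.mp hl)
    simp only [Finset.card_univ, Fintype.card_fun, Fintype.card_fin, ZMod.card]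
    rw [← pow_mul, ← pow_mul]
    apply Nat.pow_le_pow_right (by norm_num)
    rw [mul_assoc]
    exact Nat.mul_le_mul_left _ (Nat.mul_le_mul_left _ hl')
  refine (Finset.sum_le_sum this).trans ?_
  simp

lemma exists_enum {α : Type} (S : Finset α) (P : ℕ) (h0 : S.Nonempty) (h : S.card ≤ P) :
    ∃ g : Fin P → α, ∀ x, x ∈ S ↔ ∃ t, g t = x := by
  obtain ⟨a, ha⟩ := h0
  refine ⟨fun t => if ht : t.val < S.card then (S.equivFin.symm ⟨t.val, ht⟩ : α) else a, ?_⟩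
  intro x
  constructor
  · intro hx
    refine ⟨⟨(S.equivFin ⟨x, hx⟩).val, lt_of_lt_of_le (S.equivFin ⟨x, hx⟩).isLt h⟩, ?_⟩
    simp
  · rintro ⟨t, rfl⟩
    by_cases ht : t.val < S.card
    · simp only [ht, dif_pos]; exact Finset.coe_mem _
    · simp only [ht, dif_neg, not_false_eq_true]; exact ha

lemma mem_fam {n P l : ℕ} (hl : l ≤ P) (S : Fin l → Finset (V n)) (B : Finset (V n))
    (hS : ∀ i, (S i).card ≤ P)
    (hB : ∀ x, x ∈ B ↔ ∃ f : Fin l → V n, (∀ i, f i ∈ S i) ∧ ∑ i, f i = x)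
    (hne : B.Nonempty) : B ∈ fam n P := by
  classical
  obtain ⟨b, hb⟩ := hne
  obtain ⟨f0, hf0, _⟩ := (hB b).mp hb
  have : ∀ i, ∃ g : Fin P → V n, ∀ x, x ∈ S i ↔ ∃ t, g t = x :=
    fun i => exists_enum (S i) P ⟨f0 i, hf0 i⟩ (hS i)
  choose g hg using this
  unfold fam
  refine Finset.mem_biUnion.mpr ⟨l, Finset.mem_range.mpr (Nat.lt_succ_of_le hl), ?_⟩
  refine Finset.mem_image.mpr ⟨g, Finset.mem_univ _, ?_⟩
  ext x
  rw [hB x]
  simp only [Bof, Finset.mem_filter, Finset.mem_univ, true_and]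
  constructor
  · rintro ⟨t, rfl⟩
    exact ⟨fun i => g i (t i), fun i => (hg i _).mpr ⟨t i, rfl⟩, rfl⟩
  · rintro ⟨f, hf, rfl⟩
    have : ∀ i, ∃ t, g i t = f i := fun i => (hg i _).mp (hf i)
    choose t ht using this
    exact ⟨t, Finset.sum_congr rfl fun i _ => ht i⟩

lemma poly_le_exp (γ : ℝ) (hγ : 0 < γ) (C : ℝ) (hC : 0 ≤ C) (d n0 : ℕ) :
    ∃ n : ℕ, n0 ≤ n ∧ C * ((n : ℝ) + 1) ^ d ≤ exp (γ * Real.sqrt n) := by
  set k := 2 * (d + 1) with hk
  have hf : (0 : ℝ) < (k.factorial : ℝ) := by exact_mod_cast Nat.factorial_pos k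
  obtain ⟨N, hN⟩ := exists_nat_ge (C * 2 ^ d * k.factorial / γ ^ k)
  refine ⟨n0 + N + 1, by omega, ?_⟩
  set n := n0 + N + 1 with hn
  have n1 : (1 : ℝ) ≤ n := by exact_mod_cast (by omega : 1 ≤ n)
  have nN : (N : ℝ) ≤ n := by exact_mod_cast (by omega : N ≤ n)
  have h1 := Real.pow_div_factorial_le_exp (γ * Real.sqrt n) (by positivity) k
  refine le_trans ?_ h1
  have h2 : (γ * Real.sqrt n) ^ k = γ ^ k * ((n : ℝ) ^ d * n) := by
    rw [mul_pow, hk, pow_mul (Real.sqrt n), Real.sq_sqrt (by positivity), pow_succ]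
  rw [h2, le_div_iff₀ hf]
  have h3 : ((n : ℝ) + 1) ^ d ≤ 2 ^ d * (n : ℝ) ^ d := by
    rw [← mul_pow]
    exact pow_le_pow_left₀ (by positivity) (by linarith) d
  have h4 : C * 2 ^ d * k.factorial ≤ n * γ ^ k := by
    rw [← div_le_iff₀ (by positivity)]; linarith
  calc C * ((n : ℝ) + 1) ^ d * k.factorial ≤ C * (2 ^ d * (n : ℝ) ^ d) * k.factorial := by gcongr
    _ = (C * 2 ^ d * k.factorial) * (n : ℝ) ^ d := by ring
    _ ≤ (n * γ ^ k) * (n : ℝ) ^ d := by gcongr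
    _ = γ ^ k * ((n : ℝ) ^ d * n) := by ring

lemma fam_card_exp (n K : ℕ) :
    ((fam n (K * (n + 1) ^ K)).card : ℝ)
      ≤ exp (2 * ((K : ℝ) + 1) ^ 2 * ((n : ℝ) + 1) ^ (2 * K + 1)) := by
  set P := K * (n + 1) ^ K with hP
  have h1 : ((fam n P).card : ℝ) ≤ ((P : ℝ) + 1) * 2 ^ (n * P * P) := by
    exact_mod_cast fam_card n P
  refine h1.trans ?_
  have h2 : (P : ℝ) + 1 ≤ exp P := Real.add_one_le_exp _
  have h3 : (2 : ℝ) ^ (n * P * P) ≤ exp ((n * P * P : ℕ) : ℝ) := by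
    rw [← mul_one ((n * P * P : ℕ) : ℝ), Real.exp_nat_mul]
    apply pow_le_pow_left₀ (by norm_num)
    linarith [Real.add_one_le_exp 1]
  refine (mul_le_mul h2 h3 (by positivity) (exp_pos _).le).trans ?_
  rw [← Real.exp_add]
  apply Real.exp_le_exp.mpr
  have h4 : P + n * P * P ≤ 2 * (K + 1) ^ 2 * (n + 1) ^ (2 * K + 1) := by
    set W := (K + 1) * (n + 1) ^ K with hW
    have w1 : P ≤ W := Nat.mul_le_mul_right _ (Nat.le_succ K)
    have w2 : 1 ≤ W := Nat.succ_le_of_lt (by positivity)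
    have e : 2 * (K + 1) ^ 2 * (n + 1) ^ (2 * K + 1) = 2 * ((n + 1) * W * W) := by
      rw [hW]; ring
    rw [e]
    have a1 : n * P * P ≤ (n + 1) * W * W :=
      Nat.mul_le_mul (Nat.mul_le_mul (Nat.le_succ n) w1) w1
    have a2 : P ≤ (n + 1) * W * W := by
      calc P ≤ W := w1
        _ = 1 * 1 * W := by ring
        _ ≤ (n + 1) * W * W := Nat.mul_le_mul_right _ (Nat.mul_le_mul (by omega) w2)
    omega
  exact_mod_cast h4

end Pool.Agent.Lib.MP_1fd81f_co
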