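import Mathlib
import Pool.Agent.Lib.MP_1fd81f_co.Ball

/-! Every density below one half, polynomially small targets, cross sumsets. -/

set_option autoImplicit false

namespace Pool.Agent.Lib.MP_1fd81f_co.NX
open Real Finset
open scoped Classical Pointwise

variable {n : ℕ}

lemma central (k : ℕ) : k.centralBinom ^ 2 * (2 * k + 1) ≤ 16 ^ k := by
  induction k with
  | zero => simp
  | succ k ih =>
    have h := Nat.succ_mul_centralBinom_succ k
    refine Nat.le_of_mul_le_mul_left (c := (k + 1) ^ 2) ?_ (by positivity)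
    calc (k + 1) ^ 2 * ((k + 1).centralBinom ^ 2 * (2 * (k + 1) + 1))
        = ((k + 1) * (k + 1).centralBinom) ^ 2 * (2 * k + 3) := by ring
      _ = 4 * (2 * k + 1) * (2 * k + 3) * (k.centralBinom ^ 2 * (2 * k + 1)) := by rw [h]; ring
      _ ≤ (k + 1) ^ 2 * 16 * 16 ^ k := Nat.mul_le_mul (by nlinarith) ih
      _ = _ := by ring

lemma middle (n : ℕ) : n.choose (n / 2) ^ 2 * n ≤ (2 ^ n) ^ 2 := by
  rcases Nat.even_or_odd' n with ⟨k, rfl | rfl⟩
  · have := central k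
    rw [Nat.mul_div_cancel_left _ two_pos, ← Nat.centralBinom_eq_two_mul_choose,
      show (2 ^ (2 * k)) ^ 2 = 16 ^ k by rw [pow_mul, ← pow_mul, mul_comm, pow_mul]; rfl]
    nlinarith
  · have h := central (k + 1)
    have a : (k + 1).centralBinom = 2 * (2 * k + 1).choose k := by
      rw [Nat.centralBinom_eq_two_mul_choose, show 2 * (k + 1) = 2 * k + 1 + 1 by ring,
        Nat.choose_succ_succ, Nat.choose_symm_half, ← two_mul]
    rw [show (2 * k + 1) / 2 = k by omega, show (2 ^ (2 * k + 1)) ^ 2 = 4 * 16 ^ k by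
      rw [show 16 ^ k = 2 ^ (4 * k) by rw [pow_mul]; rfl]; ring]
    rw [a, pow_succ 16] at h
    nlinarith

lemma half_card (m β : ℝ) (hβ : 0 < β) (hm : 1 ≤ β * m) (hn : m ^ 2 = n) :
    (1 / 2 - β) * (2 : ℝ) ^ n ≤ ((univ.filter fun x : V n => β * m ≤ Ls x).card : ℝ) := by
  have h1 : (univ.filter fun x : V n => β * m ≤ -Ls x).card ≤
      (univ.filter fun x : V n => β * m ≤ Ls x).card :=
    card_le_card_of_injOn (· + 1) (fun x hx => by simpa [Ls_add_one] using hx)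
      (add_left_injective _).injOn
  set k := ⌈((n : ℝ) - β * m) / 2⌉₊
  have h2 : (univ.filter fun x : V n => |Ls x| < β * m).card ≤ ((Ico k (k + (⌊β * m⌋₊ + 1))).biUnion
      fun j => powersetCard j (univ : Finset (Fin n))).card := by
    refine card_le_card_of_injOn (fun x => univ.filter fun j => x j = 0) (fun x hx => ?_)
      fun x _ y _ h => funext fun j => ?_
    · have a : Ls x = 2 * ((univ.filter fun j => x j = 0).card : ℝ) - n := by
        rw [Ls, card_filter]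
        push_cast
        rw [mul_sum, show (n : ℝ) = ∑ _j : Fin n, (1 : ℝ) by simp, ← sum_sub_distrib]
        refine sum_congr rfl fun j _ => ?_
        rw [sg]; split_ifs <;> norm_num
      have b := abs_lt.1 (mem_filter.1 hx).2
      refine mem_biUnion.2 ⟨_, mem_Ico.2 ⟨Nat.ceil_le.2 (by linarith), ?_⟩,
        mem_powersetCard.2 ⟨subset_univ _, rfl⟩⟩
      have c := Nat.le_ceil (((n : ℝ) - β * m) / 2)
      have d := Nat.lt_floor_add_one (β * m)
      rw [← Nat.cast_lt (α := ℝ)]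
      push_cast
      linarith
    · have := congrArg (j ∈ ·) h
      simp only [mem_filter, mem_univ, true_and, eq_iff_iff] at this
      rcases zmod2_cases (x j) with a | a <;> rcases zmod2_cases (y j) with b | b <;> simp_all
  have h3 := h2.trans (card_biUnion_le.trans (sum_le_card_nsmul _ _ (n.choose (n / 2)) fun j _ => by
    rw [card_powersetCard, card_univ, Fintype.card_fin]; exact Nat.choose_le_middle _ _))
  rw [Nat.card_Ico, Nat.add_sub_cancel_left, smul_eq_mul, ← Nat.cast_le (α := ℝ)] at h3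
  have h4 : (n.choose (n / 2) : ℝ) * m ≤ 2 ^ n := by
    refine le_of_sq_le_sq ?_ (by positivity)
    rw [mul_pow, hn]
    exact_mod_cast middle n
  have h5 : (univ : Finset (V n)) ⊆ (univ.filter fun x => β * m ≤ Ls x) ∪ ((univ.filter fun x =>
      β * m ≤ -Ls x) ∪ univ.filter fun x => |Ls x| < β * m) := fun x _ => by
    simp only [mem_union, mem_filter, mem_univ, true_and, abs_lt]
    by_contra c
    push Not at c
    linarith [c.2.2 (by linarith), c.1]
  have h6 := (card_le_card h5).trans ((card_union_le _ _).trans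
    (Nat.add_le_add_left ((card_union_le _ _).trans (Nat.add_le_add_right h1 _)) _))
  rw [card_univ, Fintype.card_fun, ZMod.card, Fintype.card_fin, ← Nat.cast_le (α := ℝ)] at h6
  push_cast at h3 h6
  have h7 := Nat.floor_le (zero_le_one.trans hm)
  have h8 : ((⌊β * m⌋₊ : ℝ) + 1) * n.choose (n / 2) ≤ 2 * β * (n.choose (n / 2) * m) := by
    rw [show 2 * β * (n.choose (n / 2) * m) = (β * m + β * m) * n.choose (n / 2) by ring]
    exact mul_le_mul_of_nonneg_right (by linarith) (by positivity)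
  nlinarith

lemma bad_card (m δ β : ℝ) (hm0 : 0 < m) (hn : m ^ 2 = n) (hδ : 0 < δ) (hβ : 0 < β) (z : V n)
    (hz : zc z ≤ 3 * δ * n) : ((univ.filter fun x : V n => β * m ≤ Lz z x).card : ℝ)
      ≤ 2 ^ n * exp (-(2 * (β ^ 2 / 12 / δ))) := by
  refine (hoeffding z (β * m) (β / (3 * δ * m)) (by positivity)).trans
    (mul_le_mul_of_nonneg_left (exp_le_exp.2 ?_) (by positivity))
  have h1 := mul_le_mul_of_nonneg_right hz (by positivity : 0 ≤ (β / (3 * δ * m)) ^ 2 / 2)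
  have h2 : 3 * δ * n * ((β / (3 * δ * m)) ^ 2 / 2) - β / (3 * δ * m) * (β * m)
      = -(2 * (β ^ 2 / 12 / δ)) := by
    rw [← hn]; field_simp; ring
  linarith

lemma hit (m δ R κ : ℝ) (hn : m ^ 2 = n) (hδ : 0 < δ) (hδ4 : δ ≤ 1 / 4) (hm : 1 ≤ δ * m)
    (hR : 1 ≤ R) (h0 : 0 ≤ κ) (hκ : κ ≤ 1 / 2) (F : Finset (Finset (V n)))
    (hF : (F.card : ℝ) ≤ exp (R - 1)) :
    ∃ T : Finset (V n), (∀ z ∈ T, zc z ≤ 3 * δ * n) ∧ (T.card : ℝ) ≤ 3 * R * exp (κ / δ) ∧
      ∀ S ∈ F, exp (-(κ / δ)) ≤ pm δ S → ∃ z ∈ T, z ∈ S := by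
  have d1 : δ ≤ 1 := by linarith
  have μ0 := fun z : V n => mu_nonneg hδ.le d1 z
  set E := exp (κ / δ) with hE
  have E1 : 1 ≤ E := one_le_exp (by positivity)
  rw [exp_neg, ← hE]
  have Ei0 : 0 < E⁻¹ := by positivity
  have Ei1 : E⁻¹ ≤ 1 := inv_le_one_of_one_le₀ E1
  set p := E⁻¹ / 2 with hp
  have p0 : 0 < p := by positivity
  have ht := (tail hδ.le d1 n).trans (show exp (-(δ * n)) ≤ p by
    have h1 : 1 / δ ≤ δ * n := by rw [div_le_iff₀ hδ, ← hn]; nlinarith
    have h2 : 4 ≤ 1 / δ := by rw [le_div_iff₀ hδ]; linarith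
    have h3 : κ / δ ≤ 1 / 2 * (1 / δ) := by rw [mul_one_div]; gcongr
    have h4 : exp (-(δ * n)) * (exp 1 * E) ≤ 1 := by
      rw [hE, ← exp_add, ← exp_add]; exact exp_le_one_iff.2 (by linarith)
    have h5 : 2 * E ≤ exp 1 * E := by nlinarith [add_one_le_exp 1]
    rw [hp, inv_eq_one_div, div_div, le_div_iff₀ (by positivity)]
    nlinarith [exp_pos (-(δ * n))])
  obtain ⟨T, t1, t2, t3⟩ := hitting (mu δ) μ0 (univ.filter fun z : V n => zc z ≤ 3 * δ * n)
    ((sum_le_sum_of_subset_of_nonneg (subset_univ _) fun z _ _ => μ0 z).trans (mu_total δ n).le)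
    p p0 (by linarith) ⌈R / p⌉₊ (F.filter fun S => E⁻¹ ≤ pm δ S) (fun S hS => by
      have a := (mem_filter.1 hS).2
      rw [pm, ← sum_filter_add_sum_filter_not S fun z => zc z ≤ 3 * δ * n] at a
      have b := (pm_mono hδ.le d1 (filter_subset_filter (fun z => ¬ zc z ≤ 3 * δ * n)
        (subset_univ S))).trans ht
      rw [filter_comm, filter_mem_eq_inter, univ_inter]
      rw [pm] at b
      linarith) (by
      have a3 := (div_le_iff₀ p0).1 (Nat.le_ceil (R / p))
      have h1 : (1 - p) ^ ⌈R / p⌉₊ ≤ exp (-R) := by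
        refine (pow_le_pow_left₀ (by linarith) (one_sub_le_exp_neg p) _).trans ?_
        rw [← exp_nat_mul]
        exact exp_le_exp.2 (by linarith)
      refine (mul_le_mul (le_trans (by exact_mod_cast card_filter_le _ _) hF) h1
        (pow_nonneg (by linarith) _) (exp_pos _).le).trans_lt ?_
      rw [← exp_add]
      exact exp_lt_one_iff.2 (by linarith))
  refine ⟨T, fun z hz => (mem_filter.1 (t1 hz)).2, ?_, fun S a b => t3 S (mem_filter.2 ⟨a, b⟩)⟩
  have a1 : (T.card : ℝ) ≤ ⌈R / p⌉₊ := by exact_mod_cast t2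
  have a2 : (⌈R / p⌉₊ : ℝ) < R / p + 1 := Nat.ceil_lt_add_one (by positivity)
  have a3 : R / p = 2 * R * E := by rw [hp]; field_simp
  nlinarith

lemma scale (e c κ : ℝ) (he : 0 < e) (he2 : e ≤ 1 / 2) (hc : 0 < c) (L : ℕ) (h0 : 0 < L)
    (hL : -(96 * log c) ≤ L * κ) (X Y : Finset (V n)) (hX : c * 2 ^ n ≤ X.card)
    (hY : c * 2 ^ n ≤ Y.card) :
    ∃ i ∈ range L, exp (-(κ / (e / 2 ^ i) ^ 2)) ≤ pm ((e / 2 ^ i) ^ 2) (X + Y) := by
  have key : ∀ B : Finset (V n), c * 2 ^ n ≤ B.card → B.Nonempty ∧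
      ∑ i ∈ range L, (e / 2 ^ i) ^ 2 * Phi (e / 2 ^ i) n B ≤ -(48 * log c) := fun B hB => by
    have a : B.Nonempty := by
      rw [← card_pos, ← Nat.cast_pos (α := ℝ)]; exact lt_of_lt_of_le (by positivity) hB
    have h1 := log_le_log (by positivity) hB
    rw [log_mul hc.ne' (by positivity), log_pow] at h1
    exact ⟨a, (Phi_sum e he L n B a).trans (by linarith)⟩
  obtain ⟨i, hi, h⟩ := exists_le_of_sum_le (s := range L) (g := fun _ => κ)
    (f := fun i => (e / 2 ^ i) ^ 2 * Phi (e / 2 ^ i) n X + (e / 2 ^ i) ^ 2 * Phi (e / 2 ^ i) n Y)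
    (nonempty_range_iff.2 h0.ne') (by
      rw [sum_add_distrib, sum_const, card_range, nsmul_eq_mul]
      linarith [(key X hX).2, (key Y hY).2])
  refine ⟨i, hi, le_trans (exp_le_exp.2 (neg_le_neg ?_)) (pm_add_ge (e / 2 ^ i) (by positivity)
    ((div_le_self he.le (one_le_pow₀ (by norm_num))).trans he2) n X Y (key X hX).1 (key Y hY).1)⟩
  rw [le_div_iff₀ (by positivity)]
  linarith

theorem core (L : ℕ) (m e c R β : ℝ) (hn : m ^ 2 = n) (he : 0 < e) (he2 : e ≤ 1 / 2) (hc : 0 < c)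
    (hβ : 0 < β) (hβ1 : β ≤ 1) (hβm : 1 ≤ β * m) (h0 : 0 < L)
    (hL : -(96 * log c) ≤ L * (β ^ 2 / 12)) (hm : 1 ≤ (e / 2 ^ L) ^ 2 * m) (hR : 1 ≤ R)
    (hs : 3 * L * R * exp (-(β ^ 2 / 12 / e ^ 2)) ≤ β)
    (F : Finset (Finset (V n))) (hF : (F.card : ℝ) ^ 2 ≤ exp (R - 1)) :
    ∃ A : Finset (V n), (1 / 2 - 2 * β) * 2 ^ n ≤ (A.card : ℝ) ∧ ∀ X ∈ F, ∀ Y ∈ F,
      c * 2 ^ n ≤ (X.card : ℝ) → c * 2 ^ n ≤ (Y.card : ℝ) → ¬ (X + Y ⊆ A + A) := by
  have m0 : 0 < m := by by_contra h; nlinarith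
  set κ := β ^ 2 / 12 with hκ
  have h1 : ∀ i : ℕ, (e / 2 ^ i) ^ 2 ≤ e ^ 2 := fun i =>
    pow_le_pow_left₀ (by positivity) (div_le_self he.le (one_le_pow₀ (by norm_num))) _
  have hT := fun i (hi : i ∈ range L) => hit m ((e / 2 ^ i) ^ 2) R κ hn (by positivity)
    (by nlinarith [h1 i]) (hm.trans (by gcongr; exacts [one_le_two, (mem_range.1 hi).le])) hR
    (by positivity) (by nlinarith) ((F ×ˢ F).image fun p => p.1 + p.2) (le_trans (by
      rw [sq]; exact_mod_cast card_image_le.trans (card_product _ _).le) hF)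
  choose! T t1 t2 t3 using hT
  set A0 := univ.filter fun x : V n => β * m ≤ Ls x
  refine ⟨A0.filter fun x => ∀ i ∈ range L, ∀ z ∈ T i, Lz z x < β * m, ?_,
    fun X hX Y hY a b hsub => ?_⟩
  · have a := card_filter_add_card_filter_not (s := A0)
      fun x => ∀ i ∈ range L, ∀ z ∈ T i, Lz z x < β * m
    have b : (A0.filter fun x => ¬ ∀ i ∈ range L, ∀ z ∈ T i, Lz z x < β * m).card ≤
        ∑ i ∈ range L, ∑ z ∈ T i, (univ.filter fun x : V n => β * m ≤ Lz z x).card := by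
      refine (card_le_card fun x hx => ?_).trans
        (card_biUnion_le.trans (sum_le_sum fun i _ => card_biUnion_le))
      have := (mem_filter.1 hx).2
      push Not at this
      simpa using this
    rw [← Nat.cast_le (α := ℝ)] at b
    rw [← Nat.cast_inj (R := ℝ)] at a
    push_cast at a b
    have d := b.trans (sum_le_card_nsmul _ _ (3 * R * exp (-(κ / e ^ 2)) * 2 ^ n) fun i hi => by
      refine (sum_le_card_nsmul _ _ _ fun z hz =>
        bad_card m _ β m0 hn (by positivity) hβ z (t1 i hi z hz)).trans ?_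
      rw [nsmul_eq_mul]
      refine (mul_le_mul_of_nonneg_right (t2 i hi) (by positivity)).trans ?_
      rw [mul_comm (2 ^ n : ℝ), ← mul_assoc, mul_assoc (3 * R), ← exp_add]
      have : κ / e ^ 2 ≤ κ / (e / 2 ^ i) ^ 2 := div_le_div_of_nonneg_left (by positivity)
        (by positivity) (h1 i)
      gcongr
      linarith)
    rw [card_range, nsmul_eq_mul] at d
    have := mul_le_mul_of_nonneg_right hs (by positivity : (0 : ℝ) ≤ 2 ^ n)
    linarith [half_card m β hβ hβm hn]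
  obtain ⟨i, hi, h⟩ := scale e c κ he he2 hc L h0 hL X Y a b
  obtain ⟨z, hz, hzB⟩ := t3 i hi _ (mem_image.2 ⟨(X, Y), mem_product.2 ⟨hX, hY⟩, rfl⟩) h
  obtain ⟨x, hx, y, hy, rfl⟩ := mem_add.1 (hsub hzB)
  have a4 := Ls_add x (x + y)
  rw [← add_assoc, show x + x = 0 from funext fun j => CharTwo.add_self_eq_zero _, zero_add] at a4
  linarith [(mem_filter.1 (mem_filter.1 hx).1).2, (mem_filter.1 (mem_filter.1 hy).1).2,
    (mem_filter.1 hx).2 i hi _ hz]

theorem strong (α : ℝ) (hα : α < 1 / 2) : ∃ K : ℕ, 0 < K ∧ ∀ n : ℕ, ∀ c : ℝ, 0 < c → c ≤ 1 →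
    K ≤ c ^ K * √n → ∀ F : Finset (Finset (V n)), (F.card : ℝ) ≤ exp (exp (c ^ K * √n / K)) →
      ∃ A : Finset (V n), α * 2 ^ n ≤ (A.card : ℝ) ∧ ∀ X ∈ F, ∀ Y ∈ F,
        c * 2 ^ n ≤ (X.card : ℝ) → c * 2 ^ n ≤ (Y.card : ℝ) → ¬ (X + Y ⊆ A + A) := by
  obtain ⟨β, hβ⟩ : ∃ β, β = (1 / 2 - max α 0) / 2 := ⟨_, rfl⟩
  have b0 : 0 < β := by have := max_lt hα one_half_pos; linarith
  have b1 : β ≤ 1 := by linarith [le_max_right α 0]
  obtain ⟨κ, hκ⟩ : ∃ κ, κ = β ^ 2 / 12 := ⟨_, rfl⟩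
  have k0 : 0 < κ := by rw [hκ]; positivity
  obtain ⟨N, hN⟩ := exists_nat_gt (96 / κ)
  have N0 : 0 < N := Nat.cast_pos.1 (lt_trans (by positivity) hN)
  obtain ⟨K, hK⟩ := exists_nat_ge (4 ^ N * ((1 + 9 * N / β) / κ) + 4 * 4 ^ N + (2 * N + 1) + 1 / β)
  have p1 : (0 : ℝ) < 4 ^ N * ((1 + 9 * N / β) / κ) := by positivity
  have p2 : (0 : ℝ) < 4 * 4 ^ N := by positivity
  have p3 : (0 : ℝ) < 2 * N + 1 := by positivity
  have p4 : 0 < 1 / β := by positivity
  have K0 : (0 : ℝ) < K := by linarith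
  have K1 : 2 * N + 1 ≤ K := by rw [← Nat.cast_le (α := ℝ)]; push_cast; linarith
  refine ⟨K, Nat.cast_pos.1 K0, fun n c c0 c1 hn F hF => ?_⟩
  have mn := sq_sqrt (Nat.cast_nonneg n : (0 : ℝ) ≤ n)
  generalize √(n : ℝ) = m at *
  have y1 := (one_le_div K0).2 hn
  generalize hy : c ^ K * m / K = y at *
  have u1 := (one_le_inv₀ c0).2 c1
  generalize hu : c⁻¹ = u at u1
  have hm : m = K * y * u ^ K := by rw [← hy, ← hu, inv_pow]; field_simp
  obtain ⟨j, j1, j2⟩ := exists_nat_pow_near u1 one_lt_two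
  have j3 : (j : ℝ) + 1 ≤ u := le_trans (by exact_mod_cast Nat.lt_two_pow_self) j1
  obtain ⟨L, hL⟩ : ∃ L, L = N * (j + 1) := ⟨_, rfl⟩
  have q : ((2 : ℝ) ^ L) ^ 2 * (K * y * u) ≤ 4 ^ N * m := by
    have a : ((2 : ℝ) ^ L) ^ 2 ≤ 4 ^ N * u ^ (2 * N) := by
      rw [← pow_mul, show L * 2 = (j + 1) * (2 * N) by rw [hL]; ring, pow_mul,
        show (4 : ℝ) ^ N = 2 ^ (2 * N) by rw [pow_mul]; norm_num, ← mul_pow]
      exact pow_le_pow_left₀ (by positivity) (by rw [pow_succ]; linarith) _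
    have b : u ^ (2 * N + 1) ≤ u ^ K := pow_le_pow_right₀ u1 K1
    calc _ ≤ 4 ^ N * u ^ (2 * N) * (K * y * u) := by gcongr
      _ = 4 ^ N * (K * y * u ^ (2 * N + 1)) := by ring
      _ ≤ _ := by rw [hm]; gcongr
  have yu : 1 ≤ y * u := one_le_mul_of_one_le_of_one_le y1 u1
  have mK : K ≤ m := by
    rw [hm, mul_assoc]
    exact le_mul_of_one_le_right K0.le (one_le_mul_of_one_le_of_one_le y1 (one_le_pow₀ u1))
  have m0 : 0 < m := by linarith
  have he : (2 ^ L / √m) ^ 2 = (2 ^ L) ^ 2 / m := by rw [div_pow, sq_sqrt m0.le]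
  have Q0 : 0 < ((2 : ℝ) ^ L) ^ 2 := by positivity
  generalize ((2 : ℝ) ^ L) ^ 2 = Q at *
  obtain ⟨A, a1, a2⟩ := core L m (2 ^ L / √m) c (2 * exp y + 1) β mn
    (by positivity) (by
      refine le_of_sq_le_sq ?_ (by norm_num)
      rw [he, div_le_iff₀ m0]
      have : Q * (4 * 4 ^ N) ≤ Q * (K * y * u) := by
        rw [mul_assoc (K : ℝ)]
        exact mul_le_mul_of_nonneg_left (by nlinarith) Q0.le
      refine le_of_mul_le_mul_right ?_ p2
      linarith) c0 b0 b1 (by rw [← div_le_iff₀' b0]; linarith) (by rw [hL]; positivity) (by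
      have a := log_le_log (by positivity) j2.le
      rw [← hu, log_inv, log_pow] at a
      have b := log_two_lt_d9
      rw [div_lt_iff₀ k0] at hN
      rw [hL, ← hκ]
      push_cast at a ⊢
      nlinarith [(Nat.cast_nonneg j : (0 : ℝ) ≤ j)]) (by
      rw [div_right_comm, div_self (by positivity), div_pow, sq_sqrt m0.le, one_pow,
        one_div_mul_cancel m0.ne']) (by linarith [exp_pos y]) (by
      rw [he, ← hκ, exp_neg, ← div_eq_mul_inv, div_le_iff₀ (exp_pos _)]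
      have a : (1 + 9 * N / β) * (y * u) ≤ κ / (Q / m) := by
        rw [div_div_eq_mul_div, le_div_iff₀ Q0]
        have : Q * (4 ^ N * ((1 + 9 * N / β) / κ) * (y * u)) ≤ Q * (K * y * u) := by
          rw [mul_assoc (K : ℝ)]; gcongr; linarith
        have e : Q * (4 ^ N * ((1 + 9 * N / β) / κ) * (y * u)) =
          4 ^ N * ((1 + 9 * N / β) * (y * u) * Q / κ) := by ring
        have := le_of_mul_le_mul_left (e ▸ this.trans q) (by positivity)
        rwa [div_le_iff₀' k0] at this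
      have t : 0 ≤ 9 * N / β := by positivity
      have b : exp y * (9 * N / β * u) ≤ exp (κ / (Q / m)) := by
        refine le_trans ?_ (exp_le_exp.2 a)
        rw [add_mul, exp_add]
        refine mul_le_mul (exp_le_exp.2 (by nlinarith)) ?_ (by positivity) (exp_pos _).le
        have : 9 * N / β * u ≤ 9 * N / β * (y * u) := by gcongr; nlinarith
        linarith [add_one_le_exp (9 * N / β * (y * u))]
      have d : (L : ℝ) ≤ N * u := by rw [hL]; push_cast; gcongr
      have g := one_le_exp (zero_le_one.trans y1)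
      generalize exp y = E at *
      calc 3 * L * (2 * E + 1) ≤ 3 * (N * u) * (3 * E) := by gcongr; linarith
        _ = β * (E * (9 * N / β * u)) := by field_simp; norm_num
        _ ≤ _ := by gcongr) F (by
      rw [add_sub_cancel_right, two_mul, exp_add, sq]
      exact mul_self_le_mul_self (Nat.cast_nonneg _) hF)
  exact ⟨A, le_trans (by gcongr; linarith [le_max_left α 0]) a1, a2⟩

end Pool.Agent.Lib.MP_1fd81f_co.NX
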