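import Mathlib
import Pool.Agent.Lib.MP_1fd81f_co.Balls

/-! The flag of heaviest subspaces and the blocks of characters chosen along it. -/

set_option autoImplicit false

namespace Pool.Agent.Lib.MP_1fd81f_co.DB
open Finset
open scoped Classical Pointwise

variable {n : ℕ}

lemma ms_le (μ : V n → ℝ) (η : ℝ) (h0 : 0 ≤ η) (h : ∀ ξ, μ ξ ≤ η) (s : Finset (V n)) :
    ms μ s ≤ 2 ^ s.card * η := by
  have h1 : (univ.filter fun ξ : V n => ξ ∈ sp s).card ≤ 2 ^ s.card := by
    rw [← Fintype.card_subtype, Module.card_eq_pow_finrank (K := ZMod 2), ZMod.card]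
    exact Nat.pow_le_pow_right (by norm_num) (finrank_span_finset_le_card s)
  refine (sum_le_card_nsmul _ _ η fun ξ _ => h ξ).trans ?_
  rw [nsmul_eq_mul]
  exact mul_le_mul_of_nonneg_right (by exact_mod_cast h1) h0

lemma ms_mono (μ : V n → ℝ) (hμ : ∀ ξ, 0 ≤ μ ξ) {s t : Finset (V n)} (h : s ⊆ t) :
    ms μ s ≤ ms μ t :=
  sum_le_sum_of_subset_of_nonneg (fun ξ a => by
    simp only [mem_filter, mem_univ, true_and] at a ⊢; exact sp_mono h a) fun ξ _ _ => hμ ξ

lemma ms_top (μ : V n → ℝ) : ∃ s : Finset (V n), s.card ≤ n ∧ ms μ s = ∑ ξ, μ ξ := by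
  refine ⟨univ.image fun a => Pi.single a 1, card_image_le.trans (by simp), ?_⟩
  rw [ms, filter_true_of_mem]
  intro ξ _
  rw [pi_eq_sum_univ' ξ]
  exact Submodule.sum_mem _ fun a _ => Submodule.smul_mem _ _
    (Submodule.subset_span (by simp))

lemma blocks (μ : V n → ℝ) (hμ : ∀ ξ, 0 ≤ μ ξ) (t : ℕ → Finset (V n)) (q : ℕ → ℝ)
    (ht : ∀ i, (t i).card ≤ 2 * 4 ^ (i + 2))
    (hU : ∀ i, ∀ U : Finset (V n), U.card ≤ 4 ^ (i + 3) → q i ≤ ms μ (t (i + 2)) - ms μ U) (J : ℕ) :
    ∃ C : ℕ → Finset (V n), ∃ r : ℕ → ℕ, (∀ i < J, ∀ j < i, Disjoint (C j) (C i)) ∧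
      Ind ((range J).biUnion C) ∧ ((range J).biUnion C).card ≤ 4 ^ (J + 2) ∧
      ∀ i < J, (C i).card = 4 * r i ∧ (r i = 0 ∨ r i = 4 ^ (i + 1)) ∧
        ∀ z, 2 ^ 133 * co μ (t (i + 2)) (t i) z < q i → nz (C i) z < r i := by
  induction J with
  | zero => exact ⟨fun _ => ∅, fun _ => 0, by simp, by simp [Ind], by simp, by simp⟩
  | succ J ih =>
    obtain ⟨C, r, h1, h2, h3, h4⟩ := ih
    set P := (range J).biUnion C with hP
    have : ∃ D : Finset (V n), ∃ k, D.card = 4 * k ∧ Disjoint P D ∧ Ind (P ∪ D) ∧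
        (k = 0 ∨ k = 4 ^ (J + 1)) ∧
        ∀ z, 2 ^ 133 * co μ (t (J + 2)) (t J) z < q J → nz D z < k := by
      by_cases hq : 0 < q J
      · obtain ⟨D, a1, a2, a3, a4⟩ := block μ hμ (t (J + 2)) (t J ∪ P) P (q J) hq h2
          subset_union_right (4 ^ (J + 1)) (by positivity)
          ((ht _).trans (le_of_eq (by ring))) fun U h => hU J U (by
            have := card_union_le (t J) P
            have := ht J
            rw [pow_succ 4 (J + 1)] at *
            rw [pow_succ 4 (J + 2), pow_succ 4 (J + 1)]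
            omega)
        refine ⟨D, _, a1, a2, a3, Or.inr rfl, fun z hz => a4 z (le_trans ?_ hz.le)⟩
        exact mul_le_mul_of_nonneg_left (co_anti μ hμ _ subset_union_left z) (by positivity)
      · refine ⟨∅, 0, rfl, by simp, by simpa using h2, Or.inl rfl, fun z hz => (hq ?_).elim⟩
        exact lt_of_le_of_lt (mul_nonneg (by positivity) (sum_nonneg fun ξ _ => hμ ξ)) hz
    obtain ⟨D, k, a1, a2, a3, a4, a5⟩ := this
    have b : (range (J + 1)).biUnion (Function.update C J D) = P ∪ D := by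
      rw [range_add_one, biUnion_insert, Function.update_self, union_comm]
      congr 1
      exact biUnion_congr rfl fun i h => Function.update_of_ne (mem_range.1 h).ne _ _
    refine ⟨Function.update C J D, Function.update r J k, fun i hi j hj => ?_, b ▸ a3, ?_,
      fun i hi => ?_⟩
    · rw [Function.update_of_ne (by omega : j ≠ J)]
      by_cases c : i = J
      · rw [c, Function.update_self]
        exact a2.mono_left (subset_biUnion_of_mem C (mem_range.2 (c ▸ hj)))
      · rw [Function.update_of_ne c]; exact h1 i (by omega) j hj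
    · have := card_union_le P D
      rw [b, pow_succ 4 (J + 2), pow_succ 4 (J + 1)]
      rw [pow_succ 4 (J + 1)] at h3
      omega
    · by_cases c : i = J
      · rw [c, Function.update_self, Function.update_self]; exact ⟨a1, a4, a5⟩
      · rw [Function.update_of_ne c, Function.update_of_ne c]; exact h4 i (by omega)

lemma flag (μ : V n → ℝ) (hμ : ∀ ξ, 0 ≤ μ ξ) (h1 : ∑ ξ, μ ξ = 1) :
    ∃ J, ∃ C : ℕ → Finset (V n), ∃ r : ℕ → ℕ, (∀ i < J, ∀ j < J, i ≠ j → Disjoint (C i) (C j)) ∧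
      Ind ((range J).biUnion C) ∧ (∀ i < J, r i ≤ (C i).card) ∧
      ∑ i ∈ range J, ((univ.filter fun x => nz (C i) x < r i).card : ℝ) ≤ 2 ^ n / 2 ∧
      ∀ z, ∑ ξ with ξ ⬝ᵥ z = 0, μ ξ ≤ 1 / 2 ^ 136 → ∃ i < J, nz (C i) z < r i := by
  by_cases ha : ∃ ξ, 1 / 2 ^ 136 < μ ξ
  · obtain ⟨ξ, ha⟩ := ha
    have hz : ∀ z, ∑ ξ with ξ ⬝ᵥ z = 0, μ ξ ≤ 1 / 2 ^ 136 → ¬ ξ ⬝ᵥ z = 0 := fun z h c =>
      (ha.trans_le (single_le_sum (fun x _ => hμ x) (mem_filter.2 ⟨mem_univ _, c⟩))).not_ge h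
    by_cases h0 : ξ = 0
    · exact ⟨0, fun _ => ∅, fun _ => 0, by simp, by simp [Ind], by simp,
        by rw [sum_range_zero]; positivity, fun z h => (hz z h (by simp [h0])).elim⟩
    have hI : Ind {ξ} := by simpa [Ind] using h0
    refine ⟨1, fun _ => {ξ}, fun _ => 1, by omega, by simpa using hI, by simp, ?_,
      fun z h => ⟨0, one_pos, by simp [nz, hz z h]⟩⟩
    have := moment _ hI 0 _ Subset.rfl
    rw [sum_range_one, card_filter]
    push_cast
    rw [sum_congr rfl (g := fun x => (0 : ℝ) ^ nz {ξ} x) fun x _ => by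
      rcases Nat.eq_zero_or_pos (nz {ξ} x) with c | c
      · simp [c]
      · rw [if_neg (by omega), zero_pow c.ne'], this]
    simp [div_eq_inv_mul]
  push Not at ha
  have : ∀ j : ℕ, ∃ s : Finset (V n), s.card ≤ 4 ^ (j + 2) ∧
      ∀ U : Finset (V n), U.card ≤ 4 ^ (j + 2) → ms μ U ≤ ms μ s := fun j => by
    obtain ⟨s, a, b⟩ := exists_max_image (univ.filter fun s : Finset (V n) => s.card ≤ 4 ^ (j + 2))
      (ms μ) ⟨∅, by simp⟩
    exact ⟨s, (mem_filter.1 a).2, fun U h => b U (mem_filter.2 ⟨mem_univ _, h⟩)⟩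
  choose s hs hm using this
  let t : ℕ → Finset (V n) := fun i => (range (i + 1)).biUnion s
  have ht : ∀ i, (t i).card ≤ 2 * 4 ^ (i + 2) := fun i => by
    induction i with
    | zero => have := hs 0; simp only [t, zero_add, range_one, singleton_biUnion] at *; omega
    | succ i ih =>
      have := hs (i + 1)
      have a : t (i + 1) = s (i + 1) ∪ t i := by simp only [t]; rw [range_add_one, biUnion_insert]
      have := card_union_le (s (i + 1)) (t i)
      rw [a]
      rw [pow_succ 4 (i + 2)] at *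
      omega
  obtain ⟨C, r, a1, a2, -, a4⟩ := blocks μ hμ t (fun i => ms μ (s (i + 2)) - ms μ (s (i + 1))) ht
    (fun i U h => sub_le_sub (ms_mono μ hμ (subset_biUnion_of_mem s (by simp))) (hm (i + 1) U h)) n
  refine ⟨n, C, r, fun i hi j hj c => ?_, a2, fun i hi => by have := (a4 i hi).1; omega, ?_,
    fun z hz => ?_⟩
  · rcases lt_or_gt_of_ne c with c | c
    exacts [a1 j hj i c, (a1 i hi j c).symm]
  · have b : ∀ J : ℕ, ∑ i ∈ range J, (1 / 2 : ℝ) ^ (i + 2) = 1 / 2 - (1 / 2) ^ (J + 1) := fun J => by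
      induction J with
      | zero => simp
      | succ J ih => rw [sum_range_succ, ih]; ring
    refine (sum_le_sum (g := fun i => (1 / 2 : ℝ) ^ (i + 2) * 2 ^ n) fun i hi => ?_).trans ?_
    · obtain ⟨c1, c2 | c2, -⟩ := a4 i (mem_range.1 hi)
      · simp only [c2, not_lt_zero, filter_false, card_empty, Nat.cast_zero]; positivity
      refine (bad_count _ a2 _ (subset_biUnion_of_mem C hi) _ c1).trans
        (mul_le_mul_of_nonneg_right ?_ (by positivity))
      rw [c2, pow_succ' 4, pow_mul]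
      refine (pow_le_pow_left₀ (by positivity) (b := (1 / 2) ^ 2) (by norm_num) _).trans ?_
      rw [← pow_mul]
      refine pow_le_pow_of_le_one (by norm_num) (by norm_num) ?_
      have : i < 4 ^ i := Nat.lt_pow_self (by norm_num)
      omega
    · rw [← sum_mul, b]
      have : (0 : ℝ) < (1 / 2) ^ (n + 1) * 2 ^ n := by positivity
      linarith
  by_contra hc
  let a : ℕ → ℝ := fun i => ∑ ξ with ξ ∈ sp (t i) ∧ ξ ⬝ᵥ z = 0, μ ξ
  have b1 : ∀ i, co μ (t (i + 2)) (t i) z = a (i + 2) - a i := fun i => by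
    have : t i ⊆ t (i + 2) := biUnion_subset_biUnion_of_subset_left _ (by simp)
    simp only [co, a, sum_filter, ← sum_sub_distrib]
    refine sum_congr rfl fun ξ _ => ?_
    by_cases c : ξ ∈ sp (t i)
    · simp [c, sp_mono this c]
    · simp [c]
  have b2 : ∀ i, 0 ≤ a i ∧ a i ≤ 1 / 2 ^ 136 := fun i => ⟨sum_nonneg fun ξ _ => hμ ξ,
    le_trans (sum_le_sum_of_subset_of_nonneg (fun ξ h => mem_filter.2 ⟨mem_univ _,
      (mem_filter.1 h).2.2⟩) fun ξ _ _ => hμ ξ) hz⟩
  have b3 : ∀ J ≤ n, ms μ (s (J + 1)) - ms μ (s 1) ≤ 2 ^ 133 * (a (J + 1) + a J - a 1 - a 0) := by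
    intro J hJ
    induction J with
    | zero => simp
    | succ J ih =>
      have := not_lt.1 fun h => hc ⟨J, hJ, (a4 J hJ).2.2 z h⟩
      rw [b1] at this
      linarith [ih (by omega)]
  obtain ⟨U, c1, c2⟩ := ms_top μ
  have c3 := hm (n + 1) U (c1.trans (le_trans (by omega) (Nat.lt_pow_self (by norm_num)).le))
  have c4 := (ms_le μ _ (by positivity) ha (s 1)).trans (mul_le_mul_of_nonneg_right
    (pow_le_pow_right₀ (by norm_num) (hs 1)) (by positivity))
  have := b3 n le_rfl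
  norm_num at c4
  linarith [b2 0, b2 1, b2 n, b2 (n + 1)]

end Pool.Agent.Lib.MP_1fd81f_co.DB
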