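import Mathlib
import Pool.Agent.Lib.MP_1fd81f_co.Flag
import Pool.Agent.Lib.MP_1fd81f_co.Ball

/-! Fourier step and the structured half of the cube inside `A + A`. -/

set_option autoImplicit false

namespace Pool.Agent.Lib.MP_1fd81f_co.DB
open Finset
open scoped Classical Pointwise

variable {n : ℕ}

lemma sg_add (a b : ZMod 2) : sg (a + b) = sg a * sg b := by
  rcases zmod2_cases a with rfl | rfl <;> rcases zmod2_cases b with rfl | rfl <;>
    simp [show (1 : ZMod 2) + 1 = 0 by decide]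

lemma add_self_V (x : V n) : x + x = 0 := by
  funext j; exact CharTwo.add_self_eq_zero _

lemma orth (w : V n) : ∑ ξ : V n, sg (ξ ⬝ᵥ w) = if w = 0 then 2 ^ n else 0 := by
  split_ifs with h
  · simp [h]
  obtain ⟨j, hj⟩ := Function.ne_iff.1 h
  have := flip_sum (fun _ => -1) w (Pi.single j 1)
    (by rw [dot_single]; exact (zmod2_cases _).resolve_left hj) (fun _ => rfl) (-1)
  rw [add_neg_cancel, zero_div, zero_mul] at this
  rw [← this]
  refine sum_congr rfl fun x _ => ?_
  rw [dotProduct_comm, sg]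
  split_ifs <;> simp

lemma four (g : V n → ℝ) (z : V n) :
    ∑ ξ : V n, (∑ x, g x * sg (ξ ⬝ᵥ x)) ^ 2 * sg (ξ ⬝ᵥ z) = 2 ^ n * ∑ x, g x * g (x + z) := by
  have : ∀ ξ : V n, (∑ x, g x * sg (ξ ⬝ᵥ x)) ^ 2 * sg (ξ ⬝ᵥ z) =
      ∑ x, ∑ y, g x * g y * sg (ξ ⬝ᵥ (x + z + y)) := fun ξ => by
    rw [sq, sum_mul_sum, sum_mul]
    refine sum_congr rfl fun x _ => ?_
    rw [sum_mul]
    refine sum_congr rfl fun y _ => ?_
    rw [dotProduct_add, dotProduct_add, sg_add, sg_add]; ring
  simp only [this]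
  rw [sum_comm, mul_sum]
  refine sum_congr rfl fun x _ => ?_
  rw [sum_comm, sum_eq_single (x + z)]
  · rw [← mul_sum, orth, if_pos (add_self_V _)]; ring
  · intro y _ h
    rw [← mul_sum, orth, if_neg, mul_zero]
    intro c
    exact h (by rw [← add_zero y, ← c, add_comm (x + z), ← add_assoc, add_self_V, zero_add])
  · simp

theorem dense (A : Finset (V n)) (hA : (1 / 2 - 1 / 2 ^ 137) * (2 : ℝ) ^ n ≤ A.card) :
    ∃ L : List (Finset (V n)), L.length ≤ 2 * n ∧ (∀ S ∈ L, S.card ≤ n + 1) ∧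
      2 ^ n ≤ 2 * L.sum.card ∧ L.sum ⊆ A + A := by
  let g : V n → ℝ := fun x => if x ∈ A then 1 else -1
  let μ : V n → ℝ := fun ξ => (∑ x, g x * sg (ξ ⬝ᵥ x)) ^ 2 / (2 ^ n * 2 ^ n)
  have p : (0 : ℝ) < 2 ^ n := by positivity
  have h1 : ∑ ξ, μ ξ = 1 := by
    have := four g 0
    simp only [dotProduct_zero, sg_zero, mul_one, add_zero] at this
    rw [← sum_div, this, sum_congr rfl (g := fun _ => 1) fun x _ => by
      simp only [g]; split_ifs <;> simp, sum_one_cube, div_self (by positivity)]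
  obtain ⟨J, C, r, a1, a2, a3, a4, a5⟩ := flag μ (fun ξ => by positivity) h1
  obtain ⟨L, b1, b2, b3⟩ := balls J C a1 a2 _ (fun i => (C i).card - r i) rfl
  have b4 : ∀ x, x ∈ L.sum ↔ ∀ i < J, r i ≤ nz (C i) x := fun x => by
    rw [b3]
    refine forall₂_congr fun i hi => ?_
    have : nz (C i) x + wt (C i) x = (C i).card := by
      convert card_filter_add_card_filter_not (s := C i) fun ξ => ξ ⬝ᵥ x = 0
      all_goals simp [nz, wt]
    have := a3 i hi
    omega
  refine ⟨L, ?_, b2, ?_, fun z hz => ?_⟩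
  · have := ind_card _ a2
    rw [card_biUnion fun i hi j hj => a1 i (mem_range.1 hi) j (mem_range.1 hj)] at this
    have := (sum_le_sum fun i _ => Nat.sub_le (C i).card (r i)).trans this
    omega
  · have c : univ ⊆ L.sum ∪ (range J).biUnion fun i => univ.filter fun x => nz (C i) x < r i := by
      intro x _
      rw [mem_union, b4, or_iff_not_imp_left]
      intro h
      push Not at h
      obtain ⟨i, hi, h⟩ := h
      exact mem_biUnion.2 ⟨i, mem_range.2 hi, by simpa using h⟩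
    have d := (card_le_card c).trans ((card_union_le _ _).trans
      (Nat.add_le_add_left card_biUnion_le _))
    rw [card_univ, Fintype.card_fun, ZMod.card, Fintype.card_fin, ← Nat.cast_le (α := ℝ)] at d
    rw [← Nat.cast_le (α := ℝ)]
    push_cast at d ⊢
    linarith
  by_contra hc
  obtain ⟨i, hi, h⟩ := a5 z (by
    have c1 : ∑ ξ, μ ξ * sg (ξ ⬝ᵥ z) = 2 * ∑ ξ with ξ ⬝ᵥ z = 0, μ ξ - ∑ ξ, μ ξ := by
      rw [sum_filter, mul_sum, ← sum_sub_distrib]
      refine sum_congr rfl fun ξ _ => ?_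
      rw [sg]; split_ifs <;> ring
    have c2 : ∑ x, g x = 2 * A.card - 2 ^ n := by
      rw [← sum_one_cube, card_eq_sum_ones, ← filter_mem_eq_inter.trans (univ_inter A), sum_filter]
      push_cast
      rw [mul_sum, ← sum_sub_distrib]
      refine sum_congr rfl fun x _ => ?_
      simp only [g]; split_ifs <;> norm_num
    have c3 : ∑ x, g x * g (x + z) = -∑ x, g x - ∑ x, g (x + z) - ∑ _x : V n, (1 : ℝ) := by
      rw [← sum_neg_distrib, ← sum_sub_distrib, ← sum_sub_distrib]
      refine sum_congr rfl fun x _ => ?_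
      simp only [g]
      split_ifs with d1 d2
      · exact (hc (mem_add.2 ⟨x, d1, _, d2, by rw [← add_assoc, add_self_V, zero_add]⟩)).elim
      all_goals norm_num
    rw [show ∑ x, g (x + z) = ∑ x, g x from Equiv.sum_comp (Equiv.addRight z) g, c2,
      sum_one_cube] at c3
    have c4 : ∑ ξ, μ ξ * sg (ξ ⬝ᵥ z) = (∑ x, g x * g (x + z)) / 2 ^ n := by
      simp only [μ, div_mul_eq_mul_div]
      rw [← sum_div, four]; field_simp
    rw [c1, h1, c3, eq_div_iff p.ne'] at c4
    refine le_of_mul_le_mul_right ?_ p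
    linarith)
  exact ((b4 z).1 hz i hi).not_gt h

end Pool.Agent.Lib.MP_1fd81f_co.DB
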